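import Pool.Agent.W3helper43.Uni
import Pool.Agent.TH387.EX.Core
import Pool.Agent.TH885.NW.Prop

/-! All degrees, for a set of multiplicities of density one. -/

set_option autoImplicit false

namespace Pool.Agent.W3helper43

open MvPolynomial Pool.Agent.TH387.EX

/-- one multiplicity, `m` large -/
theorem large_core (r : ℕ) (hr : r = 11 ∨ r = 15) {η : ℝ} (hη : 0 < η) :
    ∃ m0 : ℕ, ∀ m : ℕ, m0 ≤ m → ∃ Φ : MvPolynomial (Fin r × Fin 2) ℂ, Φ ≠ 0 ∧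
      ∀ Y : Fin r → Fin 2 → ℂ,
      MvPolynomial.eval (fun ij : Fin r × Fin 2 => Y ij.1 ij.2) Φ ≠ 0 → ∀ d : ℕ,
        (¬ (3 ∣ d ∧ (√(r : ℝ) - 3) / 2 - η ≤ (d : ℝ) - √(r : ℝ) * m ∧
            (d : ℝ) - √(r : ℝ) * m < (√(r : ℝ) - 3) / 2) → IsAH Y m d ∧ Equivalence Y m d) ∧
          (part (fat Y m) d ≠ ⊥ → ∀ F, IsExceptional Y F → ∃ G ∈ part (fat Y m) d, ¬ F ∣ G) := by
  obtain ⟨m0, hm0⟩ := uniform4 hr hη
  refine ⟨m0, fun m hm => ?_⟩
  obtain ⟨F, hF, hF'⟩ := hm0 m hm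
  have hr10 : 10 ≤ r := by omega
  obtain ⟨Φ, hΦ, hΦ'⟩ := core hr10 (S := {d : ℕ | ¬ (3 ∣ d ∧
    (√(r : ℝ) - 3) / 2 - η ≤ (d : ℝ) - √(r : ℝ) * m ∧
      (d : ℝ) - √(r : ℝ) * m < (√(r : ℝ) - 3) / 2)}) ⟨F, hF, fun P hP d hd => hF' P hP d hd⟩
  refine ⟨Φ, hΦ, fun Y hY d => ?_⟩
  obtain ⟨h1, _, h3⟩ := hΦ' Y hY
  exact ⟨fun hd => h1 d hd, h3 d⟩

/-- the proportion of the other multiplicities tends to zero -/
theorem density {r : ℕ} (hr : r = 11 ∨ r = 15) {A : ℕ → Prop}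
    (h : ∀ η : ℝ, 0 < η → ∃ m0 : ℕ, ∀ m : ℕ, m0 ≤ m → ¬ A m → ∃ d : ℕ,
      (√(r : ℝ) - 3) / 2 - η ≤ (d : ℝ) - √(r : ℝ) * m ∧
        (d : ℝ) - √(r : ℝ) * m < (√(r : ℝ) - 3) / 2) {ε : ℝ} (hε : 0 < ε) :
    ∃ M0 : ℝ, ∀ M : ℕ, M0 ≤ M → (Set.ncard {m : ℕ | m < M ∧ ¬ A m} : ℝ) ≤ ε * M := by
  classical
  have hsq : ¬ IsSquare r := by
    rcases hr with rfl | rfl <;>
    · rintro ⟨x, hx⟩
      have h1 : x ≤ 3 := by nlinarith
      interval_cases x <;> omega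
  have hirr : Irrational (√(r : ℝ)) := irrational_sqrt_natCast_iff.2 hsq
  obtain ⟨m0, hm0⟩ := h (ε / 4) (by linarith)
  obtain ⟨M1, hM1⟩ := TH885.NW.count_sharp hirr ((√(r : ℝ) - 3) / 2) (ε / 4) 0
    (by linarith) (ε := ε / 4) (by linarith)
  refine ⟨max M1 (2 * m0 / ε), fun M hM => ?_⟩
  have hset : {m : ℕ | m < M ∧ ¬ A m} = ↑((Finset.range M).filter fun m => ¬ A m) := by
    ext m
    simp only [Set.mem_ofPred_eq, Finset.coe_filter, Finset.mem_range]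
  rw [hset, Set.ncard_coe_finset]
  have h1 := hM1 M (le_trans (le_max_left _ _) hM) ((Finset.range M).filter fun m => m0 ≤ m ∧ ¬ A m)
    (fun m hm => Finset.mem_range.1 (Finset.mem_filter.1 hm).1) (fun m hm => by
      obtain ⟨d, hd1, hd2⟩ := hm0 m (Finset.mem_filter.1 hm).2.1 (Finset.mem_filter.1 hm).2.2
      refine ⟨d, ?_, ?_⟩
      · push_cast
        linarith
      · push_cast
        linarith)
  have h2 : ((Finset.range M).filter fun m => ¬ A m) ⊆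
      (Finset.range m0) ∪ ((Finset.range M).filter fun m => m0 ≤ m ∧ ¬ A m) := by
    intro m hm
    rw [Finset.mem_filter] at hm
    rw [Finset.mem_union, Finset.mem_range, Finset.mem_filter]
    rcases Nat.lt_or_ge m m0 with h3 | h3
    · exact Or.inl h3
    · exact Or.inr ⟨hm.1, h3, hm.2⟩
  have h3 := (Finset.card_le_card h2).trans (Finset.card_union_le _ _)
  rw [Finset.card_range] at h3
  have h4 : ((((Finset.range M).filter fun m => ¬ A m).card : ℕ) : ℝ) ≤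
      m0 + (((Finset.range M).filter fun m => m0 ≤ m ∧ ¬ A m).card : ℕ) := by exact_mod_cast h3
  have h5 : 2 * (m0 : ℝ) / ε ≤ M := le_trans (le_max_right _ _) hM
  rw [div_le_iff₀ hε] at h5
  linarith

end Pool.Agent.W3helper43
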