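import Pool.Agent.W3helper43.LimD

/-! The test function over the rationals. -/

set_option autoImplicit false

namespace Pool.Agent.W3helper43

open Finset

/-- the test function over the rationals -/
def Wq (k : ℕ) (B : ℕ → Finset ℕ) (m x : ℚ) (g : ℕ × ℕ → ℚ) (t J : ℚ) : ℚ :=
  ∑ p ∈ S k, g p * t ^ p.2 * (∏ s ∈ B p.1, (t - m + s)) * ∏ i ∈ range p.1, (x - i - t - J)

theorem Wq_cast (k : ℕ) (B : ℕ → Finset ℕ) (m x : ℚ) (g : ℕ × ℕ → ℚ) (t J : ℚ) :
    ((Wq k B m x g t J : ℚ) : ℝ) = W k B m x (fun p => (g p : ℝ)) t J := by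
  unfold Wq W
  push_cast
  rfl

/-- the hypothesis on the system -/
def Inj (k : ℕ) (B : ℕ → Finset ℕ) (y : ℕ → ℕ) (m x : ℕ) : Prop :=
  ∀ g : ℕ × ℕ → ℝ, (∀ p ∈ S k, W k B m x g ((k - p.1 : ℕ) : ℝ) ((y (k - p.1) + p.2 : ℕ) : ℝ) = 0) →
    ∀ p ∈ S k, g p = 0

/-- **the test function** -/
theorem test_exists {k : ℕ} {B : ℕ → Finset ℕ} {y : ℕ → ℕ} {m x : ℕ} (hy0 : y 0 = 0)
    (h : Inj k B y m x) : ∃ g : ℕ × ℕ → ℚ,
    (∀ t r : ℕ, 1 ≤ t → t ≤ k → r < t → Wq k B m x g t ((y t + r : ℕ) : ℚ) = 0) ∧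
      Wq k B m x g 0 0 ≠ 0 := by
  classical
  let Φ : (↥(S k) → ℚ) →ₗ[ℚ] (↥(S k) → ℚ) :=
    { toFun := fun g p => ∑ q : ↥(S k), g q * (((k - p.1.1 : ℕ) : ℚ) ^ q.1.2 *
        (∏ s ∈ B q.1.1, (((k - p.1.1 : ℕ) : ℚ) - m + s)) *
        ∏ i ∈ range q.1.1, ((x : ℚ) - i - ((k - p.1.1 : ℕ) : ℚ) - ((y (k - p.1.1) + p.1.2 : ℕ) : ℚ)))
      map_add' := by
        intro b b'
        funext d
        simp only [Pi.add_apply, add_mul, sum_add_distrib]
      map_smul' := by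
        intro r b
        funext d
        simp only [Pi.smul_apply, smul_eq_mul, RingHom.id_apply, mul_sum]
        refine sum_congr rfl fun q _ => ?_
        ring }
  have hΦ : ∀ (g : ↥(S k) → ℚ) (p : ↥(S k)), Φ g p =
      Wq k B m x (fun q => if h : q ∈ S k then g ⟨q, h⟩ else 0) ((k - p.1.1 : ℕ) : ℚ)
        ((y (k - p.1.1) + p.1.2 : ℕ) : ℚ) := by
    intro g p
    unfold Wq
    rw [← Finset.sum_coe_sort (S k)]
    refine sum_congr rfl fun q _ => ?_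
    have e : (fun q : ℕ × ℕ => if h : q ∈ S k then g ⟨q, h⟩ else 0) q.1 = g q := dif_pos q.2
    rw [e]
    ring
  have hinj : Function.Injective Φ := by
    rw [← LinearMap.ker_eq_bot, LinearMap.ker_eq_bot']
    intro g hg
    have h1 := h (fun q => ((if h : q ∈ S k then g ⟨q, h⟩ else 0 : ℚ) : ℝ)) (by
      intro p hp
      have h2 : Φ g ⟨p, hp⟩ = (0 : ℚ) := congrFun hg ⟨p, hp⟩
      rw [hΦ] at h2
      have h3 := congrArg (fun z : ℚ => (z : ℝ)) h2
      simp only at h3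
      rw [Wq_cast] at h3
      push_cast at h3 ⊢
      exact h3)
    funext q
    have h2 := h1 q.1 q.2
    rw [dif_pos q.2] at h2
    exact_mod_cast h2
  have hsur := LinearMap.injective_iff_surjective.1 hinj
  have hk0 : ((k, 0) : ℕ × ℕ) ∈ S k := by
    rw [mem_S]
    simp only
    omega
  obtain ⟨g, hg⟩ := hsur (Pi.single ⟨(k, 0), hk0⟩ 1)
  refine ⟨fun q => if h : q ∈ S k then g ⟨q, h⟩ else 0, fun t r ht1 htk hr => ?_, ?_⟩
  · have hp : ((k - t, r) : ℕ × ℕ) ∈ S k := by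
      rw [mem_S]
      simp only
      omega
    have h1 := congrFun hg ⟨(k - t, r), hp⟩
    rw [hΦ] at h1
    simp only at h1
    rw [show k - (k - t) = t by omega] at h1
    rw [h1, Pi.single_eq_of_ne]
    intro h2
    have h3 : ((k - t, r) : ℕ × ℕ) = (k, 0) := congrArg Subtype.val h2
    rw [Prod.mk.injEq] at h3
    omega
  · have h1 := congrFun hg ⟨(k, 0), hk0⟩
    rw [hΦ, Pi.single_eq_same] at h1
    simp only at h1
    rw [Nat.sub_self, hy0] at h1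
    simp only [add_zero, Nat.cast_zero] at h1
    rw [h1]
    exact one_ne_zero

end Pool.Agent.W3helper43
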