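import Pool.Agent.W3helper43.Rels2
import Pool.Agent.W3helper43.LimE
import Pool.Agent.N388.EFW.Block

/-! The emptiness of the block from a deficient row and the test system. -/

set_option autoImplicit false

namespace Pool.Agent.W3helper43

open Finset Polynomial Pool.Agent.TH176.Nag
open Pool.Agent.N388
open Pool.Agent.N388.EF (Pn t_PSI t_SPAN t_PEEL)
open Pool.Agent.TH864.SX (Slp Blk)
open Pool.Agent.N388.EFW (ee NN FF mem_FF FF_zero F1 mem_F1 F1_pos inj_col SS mem_SS cc cc_in cc_out AA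
  rel_iff tri AA_ne colP colP_coeff sum_cut)

variable {M : ℕ} {K : ℝ} {m x j : ℕ}

namespace Dt

theorem quot (h : Dt M K m x j) (c : ℕ × ℕ → ℚ)
    (hc : ∀ κ ≤ m, ∀ D : ℤ, 1 ≤ D → EF.Rel (SS M K x) c κ D) (t : ℕ) :
    ∃ g : ℚ[X], colP M K x c t = (X - 1) ^ t * g ∧ (∀ l, g.coeff l ≠ 0 → (t, l) ∈ FF K m x) ∧
      ∀ n, AA M K x c t (t + n) = ∑ l ∈ range (x + 1), g.coeff l * ((l.choose n : ℕ) : ℚ) := by
  have hK := h.K0
  have hKM : 0 < K - M := by linarith [h.MK]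
  have htK : (0 : ℝ) ≤ t / K := by positivity
  obtain ⟨lo, hlo⟩ : ∃ lo : ℕ, lo = ⌈(x : ℝ) - t / (K - M)⌉₊ := ⟨_, rfl⟩
  obtain ⟨hi, hhi⟩ : ∃ hi : ℕ, hi = ⌊(x : ℝ) - t / K⌋₊ := ⟨_, rfl⟩
  have hix : hi ≤ x := by
    rw [hhi]
    apply Nat.floor_le_of_le
    linarith
  have hcut : ∀ (g : ℚ[X]) (n : ℕ), (∀ l, g.coeff l ≠ 0 → l ≤ hi) →
      ∑ j ∈ range (hi + 1), g.coeff j * ((j.choose n : ℕ) : ℚ) =
      ∑ j ∈ range (x + 1), g.coeff j * ((j.choose n : ℕ) : ℚ) := by
    intro g n hg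
    apply sum_cut hix (fun j => g.coeff j * ((j.choose n : ℕ) : ℚ))
    intro j hj
    have : g.coeff j = 0 := by
      by_contra h1
      have := hg j h1
      omega
    simp only [this, zero_mul]
  have hsupp : ∀ j, (colP M K x c t).coeff j ≠ 0 → lo ≤ j ∧ j ≤ hi := by
    intro j hj
    rw [colP_coeff] at hj
    have h1 : (t, j) ∈ SS M K x := by
      by_contra h2
      exact hj (cc_out h2)
    rw [mem_SS] at h1
    obtain ⟨-, h2, h3⟩ := h1
    simp only at h2 h3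
    constructor
    · rw [hlo]
      apply Nat.ceil_le.2
      have h4 : (x : ℝ) - j ≤ t / (K - M) := by
        rw [le_div_iff₀ hKM, mul_comm]
        exact h2
      linarith
    · rw [hhi]
      apply Nat.le_floor
      have h4 : (t : ℝ) / K ≤ x - j := by
        rw [div_le_iff₀ hK, mul_comm]
        exact h3
      linarith
  have hAA : ∀ s, ∑ j ∈ range (hi + 1), (colP M K x c t).coeff j * ((j.choose s : ℕ) : ℚ) =
      AA M K x c t s := by
    intro s
    rw [hcut _ s (fun l hl => (hsupp l hl).2)]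
    unfold AA
    apply sum_congr rfl
    intro j _
    rw [colP_coeff]
  obtain ⟨g, hg1, hg2, hg3⟩ := t_PSI t lo hi (colP M K x c t) hsupp (by
    intro s hs
    rw [hAA]
    exact h.pos_rel c hc hs)
  refine ⟨g, hg1, ?_, ?_⟩
  · intro l hl
    obtain ⟨h1, h2⟩ := hg2 l hl
    have h3 : ((l : ℝ) + t) + t / K ≤ x := by
      rcases Nat.eq_zero_or_pos (l + t) with h4 | h4
      · have h5 : l = 0 := by omega
        have h6 : t = 0 := by omega
        subst h5 h6
        simp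
      · have h5 : l + t ≤ ⌊(x : ℝ) - t / K⌋₊ := by rw [← hhi]; exact h2
        rw [Nat.le_floor_iff' (by omega)] at h5
        push_cast at h5
        linarith
    apply h.mem_FF_of h3
    have h4 : (x : ℝ) - t / (K - M) ≤ l := by
      have h5 : (x : ℝ) - t / (K - M) ≤ lo := by
        rw [hlo]
        exact Nat.le_ceil _
      have h6 : (lo : ℝ) ≤ l := by exact_mod_cast h1
      linarith
    have h5 : (t : ℝ) / (K - M) = 2 * t + t / K := by
      rw [div_eq_iff hKM.ne']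
      have h6 := h.eqK
      have h7 : (2 * (t : ℝ) + t / K) * (K - M) = t * ((K - M) * (2 * K + 1)) / K := by
        field_simp
      rw [h7, h6]
      field_simp
    rw [h5] at h4
    linarith
  · intro n
    rw [← hAA, hg3 n]
    exact hcut g n (fun l hl => by have := (hg2 l hl).2; omega)

theorem red (h : Dt M K m x j) (c : ℕ × ℕ → ℚ) (g : ℕ → ℚ[X])
    (hg2 : ∀ t l, (g t).coeff l ≠ 0 → (t, l) ∈ FF K m x)
    (hg3 : ∀ t n, AA M K x c t (t + n) = ∑ l ∈ range (x + 1), (g t).coeff l * ((l.choose n : ℕ) : ℚ))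
    (n κ : ℕ) (hc : EF.Rel (SS M K x) c κ (-(n : ℤ))) :
    ∑ q ∈ FF K m x, (g q.1).coeff q.2 * (((q.1 + n).choose κ : ℕ) : ℚ) *
      ((q.2.choose n : ℕ) : ℚ) = 0 := by
  classical
  have h1 := EFW.Dat.neg_rel c κ n hc
  have hsub : FF K m x ⊆ range (⌊K * x⌋₊ + 1) ×ˢ range (x + 1) := by
    intro q hq
    rw [mem_FF] at hq
    rw [mem_product, mem_range, mem_range]
    refine ⟨?_, by have := hq.1.2; omega⟩
    have h2 : m ≤ ⌊K * x⌋₊ := by
      apply Nat.le_floor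
      rw [h.Kx]
      have h3 := h.e0
      have h4 := h.K0
      have h5 : (0 : ℝ) ≤ m := Nat.cast_nonneg m
      have h6 : (0 : ℝ) ≤ j := Nat.cast_nonneg j
      nlinarith
    have := hq.1.1
    omega
  rw [sum_subset hsub]
  · rw [sum_product, ← h1]
    apply sum_congr rfl
    intro t _
    rw [hg3 t n, sum_mul]
    apply sum_congr rfl
    intro l _
    ring
  · intro q _ hq
    have h2 : (g q.1).coeff q.2 = 0 := by
      by_contra h3
      exact hq (hg2 _ _ h3)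
    rw [h2, zero_mul, zero_mul]

/-- the wraps -/
noncomputable def rr (K : ℝ) (m x n : ℕ) : ℕ := ⌊((n : ℝ) + ee K m x 0) / (K + 1)⌋₊

/-- the sets of right columns -/
noncomputable def BB (K : ℝ) (m x k n : ℕ) : Finset ℕ := Ico (n - rr K m x n) (k - rr K m x k)

/-- the windows -/
noncomputable def yy (K : ℝ) (t : ℕ) : ℕ := if t = 0 then 0 else ⌊(t : ℝ) / K⌋₊ + 1

theorem rr_le (h : Dt M K m x 0) (n : ℕ) : (rr K m x n : ℝ) * (K + 1) ≤ n + ee K m x 0 := by
  have h1 : 0 < K + 1 := by linarith [h.K0]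
  have h2 : (0 : ℝ) ≤ ((n : ℝ) + ee K m x 0) / (K + 1) := by
    have := h.e0
    positivity
  have h3 := Nat.floor_le h2
  rw [le_div_iff₀ h1] at h3
  exact h3

theorem lt_rr (h : Dt M K m x 0) (n : ℕ) : (n : ℝ) + ee K m x 0 < ((rr K m x n : ℝ) + 1) * (K + 1) := by
  have h1 : 0 < K + 1 := by linarith [h.K0]
  have h3 := Nat.lt_floor_add_one (((n : ℝ) + ee K m x 0) / (K + 1))
  rw [div_lt_iff₀ h1] at h3
  exact h3

theorem K1 (h : Dt M K m x j) : 1 < K := by
  have h1 := h.MK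
  have h2 : (1 : ℝ) ≤ M := by exact_mod_cast h.M0
  linarith

theorem rr_le_self (h : Dt M K m x 0) (n : ℕ) : rr K m x n ≤ n := by
  have h1 := h.rr_le n
  have h2 := h.e12
  have h3 := h.K1
  have h4 : (rr K m x n : ℝ) < n + 1 := by
    have h5 : (0 : ℝ) ≤ rr K m x n := Nat.cast_nonneg _
    nlinarith
  have h5 : rr K m x n < n + 1 := by exact_mod_cast h4
  omega

theorem rr_mono (h : Dt M K m x 0) {a b : ℕ} (hab : a ≤ b) : rr K m x a ≤ rr K m x b := by
  unfold rr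
  apply Nat.floor_le_floor
  have h1 : 0 < K + 1 := by linarith [h.K0]
  apply div_le_div_of_nonneg_right _ h1.le
  have : (a : ℝ) ≤ b := by exact_mod_cast hab
  linarith

theorem rr_step (h : Dt M K m x 0) {a b : ℕ} (hab : a ≤ b) : rr K m x b + a ≤ rr K m x a + b := by
  obtain ⟨c, rfl⟩ := Nat.exists_eq_add_of_le hab
  have h1 := h.rr_le (a + c)
  have h2 := h.lt_rr a
  have h3 := h.K1
  push_cast at h1
  have h4 : (rr K m x (a + c) : ℝ) < (rr K m x a : ℝ) + c + 1 := by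
    have h5 : ((rr K m x (a + c) : ℝ)) * (K + 1) < ((rr K m x a : ℝ) + c + 1) * (K + 1) := by
      have h6 : (0 : ℝ) ≤ c := Nat.cast_nonneg _
      nlinarith
    exact lt_of_mul_lt_mul_right h5 (by linarith)
  have h5 : rr K m x (a + c) < rr K m x a + c + 1 := by exact_mod_cast h4
  omega

/-- the sets of right columns have the right sizes -/
theorem BB_card (h : Dt M K m x 0) {k : ℕ} (hdef : ee K m x 0 * (2 * (K + 1)) + rr K m x k * (K + 1) <
    k + ee K m x 0) (he : 1 ≤ ee K m x 0 * (2 * (K + 1))) {n : ℕ} (hn : n < k) :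
    1 ≤ (BB K m x k n).card ∧ (BB K m x k n).card ≤ k - n := by
  unfold BB
  rw [Nat.card_Ico]
  have h1 := h.rr_mono hn.le
  have h2 := h.rr_le_self k
  have h3 : rr K m x k ≤ rr K m x (k - 1) := by
    have h4 := h.lt_rr (k - 1)
    rw [Nat.cast_sub (by omega)] at h4
    push_cast at h4
    have h5 : (rr K m x k : ℝ) < rr K m x (k - 1) + 1 := by
      have h6 : (rr K m x k : ℝ) * (K + 1) < ((rr K m x (k - 1) : ℝ) + 1) * (K + 1) := by linarith
      exact lt_of_mul_lt_mul_right h6 (by linarith [h.K0])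
    have h6 : rr K m x k < rr K m x (k - 1) + 1 := by exact_mod_cast h5
    omega
  have h4 := h.rr_step (show n ≤ k - 1 by omega)
  have h5 := h.rr_le_self (k - 1)
  have h6 := h.rr_le_self n
  omega

theorem yy_bd (h : Dt M K m x j) {t : ℕ} (ht : 1 ≤ t) : 1 ≤ yy K t ∧ yy K t ≤ t := by
  unfold yy
  rw [if_neg (by omega)]
  refine ⟨by omega, ?_⟩
  have h1 : (0 : ℝ) ≤ (t : ℝ) / K := by
    have := h.K0
    positivity
  have h2 := Nat.floor_le h1
  have h3 : (t : ℝ) / K < t := by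
    rw [div_lt_iff₀ h.K0]
    have h4 : (1 : ℝ) ≤ t := by exact_mod_cast ht
    have := h.K1
    nlinarith
  have h4 : ((⌊(t : ℝ) / K⌋₊ : ℕ) : ℝ) < t := lt_of_le_of_lt h2 h3
  have h5 : ⌊(t : ℝ) / K⌋₊ < t := by exact_mod_cast h4
  omega

theorem irr3 (h : Dt M K m x j) {t : ℕ} (ht : 1 ≤ t) (n : ℕ) : (t : ℝ) / K ≠ n := by
  intro h1
  have hK := h.K0
  have htR : (0 : ℝ) < t := by exact_mod_cast ht
  rw [div_eq_iff hK.ne'] at h1
  have hn : (n : ℝ) ≠ 0 := by
    intro h2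
    rw [h2, zero_mul] at h1
    linarith
  apply h.sl.irr
  refine ⟨(t : ℚ) / n, ?_⟩
  push_cast
  rw [h1]
  field_simp

/-- a left column -/
theorem FF_left2 (h : Dt M K m x j) {t l : ℕ} (ht1 : 1 ≤ t) (h1 : (t, l) ∈ FF K m x) :
    ∃ r < t, x = t + l + (yy K t + r) := by
  have h1' := h1
  rw [mem_FF] at h1
  obtain ⟨-, h2, h3⟩ := h1
  simp only at h2 h3
  have hK := h.K0
  have ht0 : (0 : ℝ) ≤ (t : ℝ) / K := by positivity
  have h4 := Nat.floor_le ht0
  have h5 := Nat.lt_floor_add_one ((t : ℝ) / K)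
  -- strictness
  have h7 : ((⌊(t : ℝ) / K⌋₊ : ℕ) : ℝ) < (t : ℝ) / K := by
    exact lt_of_le_of_ne h4 fun h8 => h.irr3 ht1 _ h8.symm
  have h8 : t + l + ⌊(t : ℝ) / K⌋₊ < x := by
    have : ((t + l + ⌊(t : ℝ) / K⌋₊ : ℕ) : ℝ) < x := by push_cast; linarith
    exact_mod_cast this
  have h9 : x < l + 2 * t + ⌊(t : ℝ) / K⌋₊ + 1 := by
    have : (x : ℝ) < ((l + 2 * t + ⌊(t : ℝ) / K⌋₊ + 1 : ℕ) : ℝ) := by push_cast; linarith
    exact_mod_cast this
  refine ⟨x - t - l - ⌊(t : ℝ) / K⌋₊ - 1, by omega, ?_⟩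
  unfold yy
  rw [if_neg (by omega)]
  omega

/-- a right column -/
theorem FF_right2 (h : Dt M K m x 0) {s l n : ℕ} (hs : s ≤ m) (h1 : (m - s, l) ∈ FF K m x) (hnl : n ≤ l) :
    n - rr K m x n ≤ s := by
  rw [mem_FF] at h1
  obtain ⟨-, h2, -⟩ := h1
  simp only at h2
  have hK := h.K0
  rw [Nat.cast_sub hs] at h2
  have h3 := h.Kx
  push_cast at h3
  have h4 : K * ((l : ℝ) + (m - s) + (m - s) / K) ≤ K * x := mul_le_mul_of_nonneg_left h2 hK.le
  have h5 : K * ((l : ℝ) + (m - s) + (m - s) / K) = K * l + (K + 1) * (m - s) := by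
    field_simp
    ring
  rw [h5, h3] at h4
  have h6 : (n : ℝ) ≤ l := by exact_mod_cast hnl
  have h7 := mul_le_mul_of_nonneg_left h6 hK.le
  by_contra h8
  push Not at h8
  have h9 : s + rr K m x n + 1 ≤ n := by omega
  have h10 : (s : ℝ) + rr K m x n + 1 ≤ n := by exact_mod_cast h9
  have h11 := h.lt_rr n
  have h12 : (s + rr K m x n + 1 : ℝ) * (K + 1) ≤ n * (K + 1) :=
    mul_le_mul_of_nonneg_right h10 (by linarith)
  linarith

end Dt

end Pool.Agent.W3helper43
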