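import Pool.Agent.W3helper43.Emp2

/-! A deficient row exists, and the blocks are empty for large `m` locally uniformly in the defect. -/

set_option autoImplicit false

namespace Pool.Agent.W3helper43

open Finset Filter Topology Pool.Agent.TH176.Nag
open Pool.Agent.TH864.SX (Slp Blk)
open Pool.Agent.N388.EFW (ee)
open Dt (rr BB yy)

/-- multiples of an irrational number modulo one -/
theorem dens {α : ℝ} (hα : Irrational α) (c : ℝ) {δ : ℝ} (hδ : 0 < δ) :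
    ∃ n : ℕ, ∃ z : ℤ, 0 < n * α + c - z ∧ n * α + c - z < δ := by
  obtain ⟨N, hN⟩ := exists_nat_gt (1 / δ)
  have hN0 : 0 < N := by
    have : (0 : ℝ) < N := lt_trans (by positivity) hN
    exact_mod_cast this
  obtain ⟨j, k, hk, -, hjk⟩ := Real.exists_int_int_abs_mul_sub_le α hN0
  obtain ⟨q, rfl⟩ : ∃ q : ℕ, k = q := ⟨k.toNat, by omega⟩
  have hq : 0 < q := by exact_mod_cast hk
  obtain ⟨β, hβ⟩ : ∃ β : ℝ, β = q * α - j := ⟨_, rfl⟩
  have hβδ : |β| < δ := by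
    rw [hβ]
    push_cast at hjk
    refine lt_of_le_of_lt hjk ?_
    rw [div_lt_iff₀ (by positivity)]
    have h1 : 1 < δ * N := by
      rw [div_lt_iff₀ hδ] at hN
      linarith
    nlinarith
  have hβ0 : β ≠ 0 := by
    intro h0
    apply hα
    refine ⟨(j : ℚ) / q, ?_⟩
    push_cast
    rw [div_eq_iff (by positivity)]
    linarith
  rcases lt_or_gt_of_ne hβ0 with hneg | hpos
  · obtain ⟨A, hA⟩ := exists_nat_gt (-(c - δ))
    have hy : 0 < (A : ℝ) + c - δ := by linarith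
    obtain ⟨i, hi⟩ : ∃ i : ℕ, i = ⌊((A : ℝ) + c - δ) / (-β)⌋₊ + 1 := ⟨_, rfl⟩
    have h1 : ((A : ℝ) + c - δ) < i * (-β) := by
      have h2 := Nat.lt_floor_add_one (((A : ℝ) + c - δ) / (-β))
      rw [div_lt_iff₀ (by linarith)] at h2
      rw [hi]
      push_cast
      exact h2
    have h3 : (i : ℝ) * (-β) ≤ ((A : ℝ) + c - δ) + (-β) := by
      have h2 := Nat.floor_le (show 0 ≤ ((A : ℝ) + c - δ) / (-β) by
        apply div_nonneg hy.le; linarith)
      rw [le_div_iff₀ (by linarith)] at h2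
      rw [hi]
      push_cast
      linarith
    refine ⟨i * q, i * j - A, ?_, ?_⟩
    · push_cast
      have e : (i : ℝ) * q * α + c - (i * j - A) = i * β + c + A := by rw [hβ]; ring
      rw [e]
      rw [abs_of_neg hneg] at hβδ
      linarith
    · push_cast
      have e : (i : ℝ) * q * α + c - (i * j - A) = i * β + c + A := by rw [hβ]; ring
      rw [e]
      linarith
  · obtain ⟨A, hA⟩ := exists_nat_gt c
    have hy : 0 < (A : ℝ) - c := by linarith
    obtain ⟨i, hi⟩ : ∃ i : ℕ, i = ⌊((A : ℝ) - c) / β⌋₊ + 1 := ⟨_, rfl⟩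
    have h1 : ((A : ℝ) - c) < i * β := by
      have h2 := Nat.lt_floor_add_one (((A : ℝ) - c) / β)
      rw [div_lt_iff₀ hpos] at h2
      rw [hi]
      push_cast
      exact h2
    have h3 : (i : ℝ) * β ≤ ((A : ℝ) - c) + β := by
      have h2 := Nat.floor_le (show 0 ≤ ((A : ℝ) - c) / β from div_nonneg hy.le hpos.le)
      rw [le_div_iff₀ hpos] at h2
      rw [hi]
      push_cast
      linarith
    refine ⟨i * q, i * j + A, ?_, ?_⟩
    · push_cast
      have e : (i : ℝ) * q * α + c - (i * j + A) = i * β + c - A := by rw [hβ]; ring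
      rw [e]
      linarith
    · push_cast
      have e : (i : ℝ) * q * α + c - (i * j + A) = i * β + c - A := by rw [hβ]; ring
      rw [e]
      rw [abs_of_pos hpos] at hβδ
      linarith

/-- the row `k` is deficient after `r` wraps -/
def Pre (K e : ℝ) (k r : ℕ) : Prop :=
  e * (2 * (K + 1)) + r * (K + 1) < k + e ∧ (k : ℝ) + e < (r + 1) * (K + 1)

theorem exists_pre {K : ℝ} (hK : Irrational K) (hK0 : 0 < K) {e : ℝ} (he0 : 0 ≤ e) (he : e < 1 / 2) :
    ∃ k r : ℕ, 1 ≤ k ∧ Pre K e k r := by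
  obtain ⟨r, z, h1, h2⟩ := dens hK (K + 1 - e) (δ := (1 - 2 * e) * (K + 1)) (by
    apply mul_pos <;> linarith)
  have h3 : (0 : ℝ) < z + r := by
    have h4 : (0 : ℝ) ≤ (r : ℝ) := Nat.cast_nonneg r
    nlinarith
  have h4 : 0 < z + r := by exact_mod_cast h3
  obtain ⟨k, hk⟩ : ∃ k : ℕ, z + r = k := ⟨(z + r).toNat, by omega⟩
  have hkR : (z : ℝ) + r = k := by exact_mod_cast hk
  refine ⟨k, r, by omega, ?_, ?_⟩
  · linarith
  · linarith

/-- locally uniform emptiness -/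
def Loc (M : ℕ) (K : ℝ) (s : Set ℝ) : Prop :=
  ∃ m0 : ℕ, ∀ m ≥ m0, ∀ x : ℕ, ee K m x 0 ∈ s → Emp (fun _ : Fin (M + 2) => m) (Blk M K (3 * x))

theorem W_congr {k : ℕ} {B B' : ℕ → Finset ℕ} (h : ∀ n ≤ k, B n = B' n) (m x : ℝ) (g : ℕ × ℕ → ℝ) (t J : ℝ) :
    W k B m x g t J = W k B' m x g t J := by
  unfold W
  refine sum_congr rfl fun p hp => ?_
  rw [mem_S] at hp
  rw [h p.1 hp.1]

theorem loc_at {M : ℕ} {K : ℝ} (sl : Slp M 2 K) {e : ℝ} (he0 : K - M ≤ e) (he : e < 1 / 2) :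
    ∃ t ∈ 𝓝[Set.Icc (K - M) (1 / 2)] e, Loc M K t := by
  have hK0 := sl.K0
  have hM : (1 : ℝ) ≤ M := by exact_mod_cast sl.hM
  have hMK := sl.hMK
  have hK1 : 1 < K := by linarith
  have heq : 2 * (K * (K - M)) = M := by
    have := sl.eq
    push_cast at this
    exact this
  obtain ⟨k, r, hk, hpre1, hpre2⟩ := exists_pre sl.irr hK0 (show 0 ≤ e by linarith) he
  obtain ⟨U, hU⟩ : ∃ U : Set ℝ, U = {e' : ℝ | Pre K e' k r ∧ e' < 1 / 2} := ⟨_, rfl⟩
  have hUo : IsOpen U := by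
    rw [hU]
    unfold Pre
    have h1 : IsOpen {e' : ℝ | e' * (2 * (K + 1)) + r * (K + 1) < k + e'} :=
      isOpen_lt (by fun_prop) (by fun_prop)
    have h2 : IsOpen {e' : ℝ | (k : ℝ) + e' < (r + 1) * (K + 1)} := isOpen_lt (by fun_prop) (by fun_prop)
    have h3 : IsOpen {e' : ℝ | e' < 1 / 2} := isOpen_lt (by fun_prop) (by fun_prop)
    exact (h1.inter h2).inter h3
  have hUe : e ∈ U := by
    rw [hU]
    exact ⟨⟨hpre1, hpre2⟩, he⟩
  refine ⟨U ∩ Set.Icc (K - M) (1 / 2), ?_, ?_⟩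
  · exact inter_mem (mem_nhdsWithin_of_mem_nhds (hUo.mem_nhds hUe)) self_mem_nhdsWithin
  -- all patterns at once
  have hev : ∀ ρ : Fin (k + 1) → Fin (k + 1), ∀ᶠ m : ℕ in atTop, ∀ x : ℕ,
      |(x : ℝ) - (K + 1) / K * m| ≤ 1 →
      (∀ n < k, 1 ≤ (Ico (n - (ρ (Fin.ofNat (k + 1) n) : ℕ)) (k - (ρ (Fin.ofNat (k + 1) k) : ℕ))).card ∧
        (Ico (n - (ρ (Fin.ofNat (k + 1) n) : ℕ)) (k - (ρ (Fin.ofNat (k + 1) k) : ℕ))).card ≤ k - n) →
      (∀ t, 1 ≤ t → t ≤ k → 1 ≤ yy K t ∧ yy K t ≤ t) →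
      Inj k (fun n => Ico (n - (ρ (Fin.ofNat (k + 1) n) : ℕ)) (k - (ρ (Fin.ofNat (k + 1) k) : ℕ))) (yy K) m x := by
    intro ρ
    by_cases h1 : ∀ n < k, 1 ≤ (Ico (n - (ρ (Fin.ofNat (k + 1) n) : ℕ)) (k - (ρ (Fin.ofNat (k + 1) k) : ℕ))).card ∧
        (Ico (n - (ρ (Fin.ofNat (k + 1) n) : ℕ)) (k - (ρ (Fin.ofNat (k + 1) k) : ℕ))).card ≤ k - n
    · by_cases h2 : ∀ t, 1 ≤ t → t ≤ k → 1 ≤ yy K t ∧ yy K t ≤ t
      · have h3 := LIM k hk (fun n => Ico (n - (ρ (Fin.ofNat (k + 1) n) : ℕ)) (k - (ρ (Fin.ofNat (k + 1) k) : ℕ)))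
          h1 (by simp) (yy K) (by unfold yy; simp) h2 ((K + 1) / K) (by
            intro h4
            rw [div_eq_iff hK0.ne'] at h4
            linarith) 1
        filter_upwards [h3] with m hm x hx _ _ g hg
        exact hm x hx g hg
      · filter_upwards with m x _ _ h3
        exact absurd h3 h2
    · filter_upwards with m x _ h3
      exact absurd h3 h1
  obtain ⟨m0, hm0⟩ := eventually_atTop.1 (eventually_all.2 hev)
  refine ⟨max (max m0 (2 * k)) 1, fun m hm x hx => ?_⟩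
  obtain ⟨hxU, hx1, -⟩ := hx
  rw [hU] at hxU
  obtain ⟨⟨hp1, hp2⟩, hx2⟩ := hxU
  have hD : Dt M K m x 0 := by
    refine ⟨sl, by linarith, hx2, ?_, by omega⟩
    push_cast
    nlinarith
  have hrr : rr K m x k = r := by
    unfold rr
    rw [Nat.floor_eq_iff (by
      have := hD.e0
      positivity)]
    rw [le_div_iff₀ (by linarith), div_lt_iff₀ (by linarith)]
    refine ⟨?_, hp2⟩
    have h1 : 0 ≤ ee K m x 0 * (2 * (K + 1)) := mul_nonneg hD.e0 (by linarith)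
    linarith
  have hdef : ee K m x 0 * (2 * (K + 1)) + rr K m x k * (K + 1) < k + ee K m x 0 := by
    rw [hrr]
    exact hp1
  have he1 : 1 ≤ ee K m x 0 * (2 * (K + 1)) := by
    have h1 : (K - M) * (2 * (K + 1)) ≤ ee K m x 0 * (2 * (K + 1)) :=
      mul_le_mul_of_nonneg_right hx1 (by linarith)
    nlinarith
  have hcard := fun n (hn : n < k) => hD.BB_card hdef he1 hn
  have hyy := fun t (ht : 1 ≤ t) (_ : t ≤ k) => hD.yy_bd ht
  obtain ⟨ρ, hρ⟩ : ∃ ρ : Fin (k + 1) → Fin (k + 1), ρ = fun n =>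
      ⟨rr K m x n, by have := hD.rr_le_self (n : ℕ); have := n.2; omega⟩ := ⟨_, rfl⟩
  have hρn : ∀ n ≤ k, (ρ (Fin.ofNat (k + 1) n) : ℕ) = rr K m x n := by
    intro n hn
    rw [hρ]
    simp only [Fin.ofNat_eq_cast, Fin.val_natCast]
    rw [Nat.mod_eq_of_lt (by omega)]
  have hBB : ∀ n ≤ k, Ico (n - (ρ (Fin.ofNat (k + 1) n) : ℕ)) (k - (ρ (Fin.ofNat (k + 1) k) : ℕ)) =
      BB K m x k n := by
    intro n hn
    rw [hρn n hn, hρn k le_rfl]
    rfl
  have hinj' := hm0 m (by omega) ρ x (by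
    have h1 := hD.Kx
    push_cast at h1
    have h2 : (x : ℝ) - (K + 1) / K * m = ee K m x 0 / K := by
      field_simp
      linarith
    rw [h2, abs_of_nonneg (div_nonneg hD.e0 hK0.le), div_le_one hK0]
    linarith) (by
    intro n hn
    rw [hBB n hn.le]
    exact hcard n hn) hyy
  refine hD.emp2 (k := k) (by omega) hdef ?_
  intro g hg
  apply hinj' g
  intro p hp
  rw [W_congr hBB]
  exact hg p hp

/-- **the blocks are empty for large `m`** -/
theorem loc_Icc {M : ℕ} {K : ℝ} (sl : Slp M 2 K) {e1 : ℝ} (he1 : e1 < 1 / 2) :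
    Loc M K (Set.Icc (K - M) e1) := by
  refine IsCompact.induction_on (p := Loc M K) isCompact_Icc ?_ ?_ ?_ ?_
  · exact ⟨0, fun m _ x hx => absurd hx (Set.notMem_empty _)⟩
  · rintro s t hst ⟨m0, h⟩
    exact ⟨m0, fun m hm x hx => h m hm x (hst hx)⟩
  · rintro s t ⟨m0, h⟩ ⟨m1, h'⟩
    refine ⟨max m0 m1, fun m hm x hx => ?_⟩
    rcases hx with hx | hx
    · exact h m (by omega) x hx
    · exact h' m (by omega) x hx
  · intro e he
    obtain ⟨t, ht, h⟩ := loc_at sl he.1 (lt_of_le_of_lt he.2 he1)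
    refine ⟨t, ?_, h⟩
    exact nhdsWithin_mono e (Set.Icc_subset_Icc_right he1.le) ht

end Pool.Agent.W3helper43
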