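import Pool.Agent.W3helper43.Solve
import Pool.Agent.N388.EF.VALw

/-! The emptiness of the block. -/

set_option autoImplicit false

namespace Pool.Agent.W3helper43

open Finset Polynomial Pool.Agent.TH176.Nag
open Pool.Agent.N388
open Pool.Agent.TH864.SX (Slp Blk)
open Pool.Agent.N388.EFW (ee NN FF mem_FF FF_zero F1 mem_F1 F1_pos inj_col SS mem_SS cc cc_in cc_out AA
  rel_iff tri AA_ne colP colP_coeff sum_cut)

variable {M : ℕ} {K : ℝ} {m x : ℕ}

namespace Dt

/-- **the block** -/
theorem emp_aux {j : ℕ} (h : Dt M K m x j) (hsol : ∀ b : ℕ × ℕ → ℚ,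
    (∀ n, ∀ κ < NN K m x j n, ∑ q ∈ FF K m x, b q * (((q.1 + n).choose κ : ℕ) : ℚ) *
      ((q.2.choose n : ℕ) : ℚ) = 0) → ∀ q ∈ FF K m x, b q = 0) {w : Fin (M + 2) → ℕ}
    (hw : ∀ i, m ≤ w i) (hs : ∑ i, w i = (M + 2) * m + j) : Emp w (Blk M K (3 * x)) := by
  classical
  have hK := h.K0
  have hKM : 0 < K - M := by linarith [h.MK]
  have key := EF.VALw (M + 2) w (SS M K x)
    (fun κ => ⌊ee K m x j + j + (K + 1) * ((m : ℝ) - κ)⌋) (by
      intro κ p hp hκp
      rw [mem_SS] at hp
      obtain ⟨-, -, h3⟩ := hp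
      rw [Int.le_floor]
      have h4 : (κ : ℝ) ≤ p.2 := by exact_mod_cast hκp
      have h5 := h.Kx
      have h6 : K * ((x : ℝ) - p.2) ≤ K * ((x : ℝ) - κ) :=
        mul_le_mul_of_nonneg_left (by linarith) hK.le
      push_cast
      rw [mul_sub, h5] at h6
      linarith) (by
      intro c hc
      have hR : ∀ κ ≤ m, ∀ D : ℤ, ee K m x j - ((M : ℝ) + 1 - K) * ((m : ℝ) - κ) < D →
          EF.Rel (SS M K x) c κ D := by
        intro κ hκ D hD
        apply hc κ D
        have h0 : ∑ i, (w i - κ) = (M + 2) * (m - κ) + j := by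
          have h1 : ∑ i, (w i - κ) + ∑ _i : Fin (M + 2), κ = ∑ i, w i := by
            rw [← sum_add_distrib]
            apply sum_congr rfl
            intro i _
            have := hw i
            omega
          rw [sum_const, card_univ, Fintype.card_fin, hs, smul_eq_mul] at h1
          obtain ⟨r, rfl⟩ := Nat.exists_eq_add_of_le hκ
          have e3 : κ + r - κ = r := by omega
          rw [e3]
          rw [Nat.mul_add] at h1
          omega
        have h1 : ⌊ee K m x j + j + (K + 1) * ((m : ℝ) - κ)⌋ <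
            D + ((∑ i, (w i - κ) : ℕ) : ℤ) := by
          rw [h0, Int.floor_lt]
          push_cast [Nat.cast_sub hκ]
          linarith
        linarith
      have hpos : ∀ κ ≤ m, ∀ D : ℤ, 1 ≤ D → EF.Rel (SS M K x) c κ D := by
        intro κ hκ D hD
        apply hR κ hκ D
        have h1 : (1 : ℝ) ≤ D := by exact_mod_cast hD
        have h2 : (κ : ℝ) ≤ m := by exact_mod_cast hκ
        have h3 := h.e12
        have h4 : 0 ≤ ((M : ℝ) + 1 - K) * ((m : ℝ) - κ) := mul_nonneg h.lam0.le (by linarith)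
        linarith
      choose g hg1 hg2 hg3 using h.quot c hpos
      have hb := hsol (fun q => (g q.1).coeff q.2) (by
        intro n κ hκ
        apply h.red c g hg2 hg3 n κ
        apply hR κ (h.NN_lt_m hκ).le
        have := h.lt_NN.1 hκ
        push_cast
        linarith)
      have hg0 : ∀ t, g t = 0 := by
        intro t
        ext l
        rw [coeff_zero]
        by_contra h1
        exact h1 (hb (t, l) (hg2 t l h1))
      rintro ⟨t, j⟩ hp
      have h1 : (colP M K x c t).coeff j = 0 := by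
        rw [hg1 t, hg0 t, mul_zero, coeff_zero]
      rw [colP_coeff, cc_in hp] at h1
      exact h1)
  refine key.mono ?_
  rintro ⟨a, b⟩ hab
  obtain ⟨h1, h2, h3⟩ := hab
  simp only at h1 h2 h3
  have e : (((3 * x : ℕ) : ℝ)) / 3 = x := by push_cast; ring
  rw [e] at h2 h3
  obtain ⟨j', rfl⟩ : ∃ j' : ℕ, b = j' := ⟨b.toNat, by omega⟩
  push_cast at h2 h3
  have hjx : (j' : ℝ) ≤ x := by
    by_contra h4
    push Not at h4
    have h5 : ((x : ℝ) - j') < 0 := by linarith
    have h6 : K * ((x : ℝ) - j') < (K - M) * ((x : ℝ) - j') := by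
      have : (0 : ℝ) < M := by exact_mod_cast h.M0
      nlinarith
    linarith
  have ha0 : (0 : ℝ) ≤ a := by
    have : 0 ≤ (K - M) * ((x : ℝ) - j') := mul_nonneg hKM.le (by linarith)
    linarith
  have ha1 : 0 ≤ a := by exact_mod_cast ha0
  obtain ⟨t, rfl⟩ : ∃ t : ℕ, a = t := ⟨a.toNat, by omega⟩
  push_cast at h2 h3
  refine ⟨(t, j'), ?_, rfl⟩
  rw [mem_SS]
  refine ⟨⟨?_, by exact_mod_cast hjx⟩, h2, h3⟩
  apply Nat.le_floor
  refine h3.trans ?_
  apply mul_le_mul_of_nonneg_left _ hK.le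
  have : (0 : ℝ) ≤ j := Nat.cast_nonneg j
  linarith

/-- **the block** -/
theorem emp2 (h : Dt M K m x 0) {k : ℕ} (hkm : 2 * k ≤ m)
    (hdef : ee K m x 0 * (2 * (K + 1)) + rr K m x k * (K + 1) < k + ee K m x 0)
    (hinj : Inj k (BB K m x k) (yy K) m x) : Emp (fun _ : Fin (M + 2) => m) (Blk M K (3 * x)) :=
  h.emp_aux (fun b hb => h.solve2 hkm hdef hinj b hb) (fun _ => le_rfl) (by simp)

end Dt

end Pool.Agent.W3helper43
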