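import Mathlib

/-! Families of polynomials in two variables with continuous coefficients, and the limits of
finite functionals on shrinking sets. -/

set_option autoImplicit false

namespace Pool.Agent.W3helper43

open Finset Polynomial Filter Topology

/-- the parameters: the scale, the slope and the coefficients -/
abbrev Par : Type := ℝ × ℝ × (ℕ × ℕ → ℝ)

/-- families with continuous coefficients and degrees at most `N` -/
structure GP (N : ℕ) (P : Par → ℝ[X][X]) : Prop where
  ct : ∀ c i, Continuous fun e => ((P e).coeff c).coeff i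
  bd : ∀ e c i, (N < c ∨ N < i) → ((P e).coeff c).coeff i = 0

theorem GP.mono {N N' : ℕ} {P : Par → ℝ[X][X]} (h : GP N P) (hN : N ≤ N') : GP N' P :=
  ⟨h.ct, fun e c i hci => h.bd e c i (by omega)⟩

theorem GP.add {N : ℕ} {P Q : Par → ℝ[X][X]} (h : GP N P) (h' : GP N Q) :
    GP N (fun e => P e + Q e) := by
  refine ⟨fun c i => ?_, fun e c i hci => ?_⟩
  · simp only [coeff_add]
    exact (h.ct c i).add (h'.ct c i)
  · simp only [coeff_add]
    rw [h.bd e c i hci, h'.bd e c i hci, add_zero]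

theorem GP.sum {ι : Type} {N : ℕ} (s : Finset ι) {P : ι → Par → ℝ[X][X]}
    (h : ∀ a ∈ s, GP N (P a)) : GP N (fun e => ∑ a ∈ s, P a e) := by
  classical
  induction s using Finset.induction_on with
  | empty =>
    refine ⟨fun c i => ?_, fun e c i _ => ?_⟩
    · simp only [sum_empty, coeff_zero]
      exact continuous_const
    · simp
  | insert a s ha ih =>
    have h1 := h a (mem_insert_self a s)
    have h2 := ih fun b hb => h b (mem_insert_of_mem hb)
    have h3 := h1.add h2
    convert h3 using 2 with e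
    rw [sum_insert ha]

theorem GP.mul {N N' : ℕ} {P Q : Par → ℝ[X][X]} (h : GP N P) (h' : GP N' Q) :
    GP (N + N') (fun e => P e * Q e) := by
  have key : ∀ e c i, ((P e * Q e).coeff c).coeff i = ∑ x ∈ antidiagonal c, ∑ z ∈ antidiagonal i,
      ((P e).coeff x.1).coeff z.1 * ((Q e).coeff x.2).coeff z.2 := by
    intro e c i
    rw [coeff_mul, finsetSum_coeff]
    refine sum_congr rfl fun x _ => ?_
    rw [coeff_mul]
  refine ⟨fun c i => ?_, fun e c i hci => ?_⟩
  · simp only [key]
    exact continuous_finsetSum _ fun x _ => continuous_finsetSum _ fun z _ =>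
      (h.ct _ _).mul (h'.ct _ _)
  · rw [key]
    refine sum_eq_zero fun x hx => sum_eq_zero fun z hz => ?_
    rw [HasAntidiagonal.mem_antidiagonal] at hx hz
    by_cases h1 : N < x.1 ∨ N < z.1
    · rw [h.bd e _ _ h1, zero_mul]
    · rw [h'.bd e _ _ (by omega), mul_zero]

theorem GP.one : GP 0 (fun _ => 1) := by
  refine ⟨fun c i => continuous_const, fun e c i hci => ?_⟩
  rcases hci with h | h
  · rw [show (1 : ℝ[X][X]) = C 1 from rfl, coeff_C_of_ne_zero (by omega), coeff_zero]
  · rw [show (1 : ℝ[X][X]) = C 1 from rfl]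
    by_cases hc : c = 0
    · subst hc
      rw [coeff_C_zero, show (1 : ℝ[X]) = C 1 from rfl, coeff_C_of_ne_zero (by omega)]
    · rw [coeff_C_of_ne_zero hc, coeff_zero]

theorem GP.prod {ι : Type} (s : Finset ι) {P : ι → Par → ℝ[X][X]}
    (h : ∀ a ∈ s, GP 1 (P a)) : GP s.card (fun e => ∏ a ∈ s, P a e) := by
  classical
  induction s using Finset.induction_on with
  | empty =>
    simpa using GP.one
  | insert a s ha ih =>
    have h1 := h a (mem_insert_self a s)
    have h2 := ih fun b hb => h b (mem_insert_of_mem hb)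
    have h3 := h1.mul h2
    rw [card_insert_of_notMem ha, add_comm]
    convert h3 using 2 with e
    rw [prod_insert ha]

theorem GP.const {f : Par → ℝ} (hf : Continuous f) : GP 0 (fun e => C (C (f e))) := by
  refine ⟨fun c i => ?_, fun e c i hci => ?_⟩
  · by_cases hc : c = 0
    · subst hc
      by_cases hi : i = 0
      · subst hi
        simpa using hf
      · have : (fun e => ((C (C (f e)) : ℝ[X][X]).coeff 0).coeff i) = fun _ => (0 : ℝ) := by
          funext e
          rw [coeff_C_zero, coeff_C_of_ne_zero hi]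
        rw [this]
        exact continuous_const
    · have : (fun e => ((C (C (f e)) : ℝ[X][X]).coeff c).coeff i) = fun _ => (0 : ℝ) := by
        funext e
        rw [coeff_C_of_ne_zero hc, coeff_zero]
      rw [this]
      exact continuous_const
  · rcases hci with h | h
    · rw [coeff_C_of_ne_zero (by omega), coeff_zero]
    · by_cases hc : c = 0
      · subst hc
        rw [coeff_C_zero, coeff_C_of_ne_zero (by omega)]
      · rw [coeff_C_of_ne_zero hc, coeff_zero]

/-- a linear form -/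
theorem GP.lin (a b : ℝ) {f : Par → ℝ} (hf : Continuous f) :
    GP 1 (fun e => C (C (f e) + C a * X) + C (C b) * X) := by
  have h1 := (GP.const hf).mono (Nat.zero_le 1)
  have h2 : GP 1 (fun _ : Par => (C (C a * X) : ℝ[X][X])) := by
    refine ⟨fun c i => continuous_const, fun e c i hci => ?_⟩
    by_cases hc : c = 0
    · subst hc
      rw [coeff_C_zero, coeff_C_mul, coeff_X_of_ne_one (by omega), mul_zero]
    · rw [coeff_C_of_ne_zero hc, coeff_zero]
  have h3 : GP 1 (fun _ : Par => (C (C b) * X : ℝ[X][X])) := by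
    refine ⟨fun c i => continuous_const, fun e c i hci => ?_⟩
    rw [coeff_C_mul]
    by_cases hc : c = 1
    · subst hc
      rw [coeff_X_one, mul_one, coeff_C_of_ne_zero (by omega)]
    · rw [coeff_X_of_ne_one hc, mul_zero, coeff_zero]
  have h4 := (h1.add h2).add h3
  convert h4 using 2 with e
  rw [C_add]

/-- powers of the inner variable -/
theorem GP.pow (n : ℕ) : GP n (fun _ : Par => (C (X ^ n) : ℝ[X][X])) := by
  refine ⟨fun c i => continuous_const, fun e c i hci => ?_⟩
  by_cases hc : c = 0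
  · subst hc
    rw [coeff_C_zero, coeff_X_pow, if_neg (by omega)]
  · rw [coeff_C_of_ne_zero hc, coeff_zero]

/-- the value -/
noncomputable def ev (P : ℝ[X][X]) (τ υ : ℝ) : ℝ := (P.eval (C υ)).eval τ

theorem ev_eq {N : ℕ} {P : ℝ[X][X]} (h : ∀ c i, (N < c ∨ N < i) → (P.coeff c).coeff i = 0)
    (τ υ : ℝ) : ev P τ υ = ∑ d ∈ range (N + 1) ×ˢ range (N + 1),
      (P.coeff d.2).coeff d.1 * (τ ^ d.1 * υ ^ d.2) := by
  unfold ev
  have h1 : P.natDegree < N + 1 := by
    rw [Nat.lt_succ_iff, natDegree_le_iff_coeff_eq_zero]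
    intro c hc
    ext i
    rw [coeff_zero]
    exact h c i (Or.inl hc)
  rw [eval_eq_sum_range' h1, eval_finsetSum, sum_product_right]
  refine sum_congr rfl fun c _ => ?_
  rw [eval_mul, ← C_pow, eval_C]
  have h2 : (P.coeff c).natDegree < N + 1 := by
    rw [Nat.lt_succ_iff, natDegree_le_iff_coeff_eq_zero]
    intro i hi
    exact h c i (Or.inr hi)
  rw [eval_eq_sum_range' h2, sum_mul]
  refine sum_congr rfl fun i _ => ?_
  ring

/-- **the limit of a functional** -/
theorem lim_fun {ι : Type} {N D : ℕ} (Q : Finset ι) (σ a b : ι → ℝ)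
    (hσ : ∀ d : ℕ × ℕ, d.1 + d.2 < D → ∑ q ∈ Q, σ q * (a q ^ d.1 * b q ^ d.2) = 0)
    (u : ℕ → ℕ × ℕ → ℝ) (v : ℕ × ℕ → ℝ) (hu : ∀ d, Tendsto (fun j => u j d) atTop (𝓝 (v d)))
    (ε : ℕ → ℝ) (hε0 : ∀ j, ε j ≠ 0) (hε : Tendsto ε atTop (𝓝 0))
    (h : ∀ j, ∀ q ∈ Q, ∑ d ∈ range (N + 1) ×ˢ range (N + 1),
      u j d * ((a q * ε j) ^ d.1 * (b q * ε j) ^ d.2) = 0) :
    ∑ d ∈ range (N + 1) ×ˢ range (N + 1), v d * (if d.1 + d.2 = D then 1 else 0) *
      ∑ q ∈ Q, σ q * (a q ^ d.1 * b q ^ d.2) = 0 := by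
  obtain ⟨mom, hmom⟩ : ∃ mom : ℕ × ℕ → ℝ, mom = fun d =>
    ∑ q ∈ Q, σ q * (a q ^ d.1 * b q ^ d.2) := ⟨_, rfl⟩
  have hm : ∀ d : ℕ × ℕ, ∑ q ∈ Q, σ q * (a q ^ d.1 * b q ^ d.2) = mom d := fun d => by rw [hmom]
  simp only [hm] at hσ ⊢
  have hz : ∀ j, ∑ d ∈ range (N + 1) ×ˢ range (N + 1), u j d *
      (if D ≤ d.1 + d.2 then ε j ^ (d.1 + d.2 - D) else 0) * mom d = 0 := by
    intro j
    have h1 : ∑ q ∈ Q, σ q * ∑ d ∈ range (N + 1) ×ˢ range (N + 1),
        u j d * ((a q * ε j) ^ d.1 * (b q * ε j) ^ d.2) = 0 :=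
      sum_eq_zero fun q hq => by rw [h j q hq, mul_zero]
    have h2 : ∑ q ∈ Q, σ q * ∑ d ∈ range (N + 1) ×ˢ range (N + 1),
        u j d * ((a q * ε j) ^ d.1 * (b q * ε j) ^ d.2) =
        ∑ d ∈ range (N + 1) ×ˢ range (N + 1), u j d * ε j ^ (d.1 + d.2) * mom d := by
      simp only [mul_sum]
      rw [sum_comm]
      refine sum_congr rfl fun d _ => ?_
      rw [hmom]
      simp only [mul_sum]
      refine sum_congr rfl fun q _ => ?_
      rw [mul_pow, mul_pow, pow_add]
      ring
    have h3 : ∑ d ∈ range (N + 1) ×ˢ range (N + 1), u j d * ε j ^ (d.1 + d.2) * mom d =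
        ε j ^ D * ∑ d ∈ range (N + 1) ×ˢ range (N + 1), u j d *
          (if D ≤ d.1 + d.2 then ε j ^ (d.1 + d.2 - D) else 0) * mom d := by
      rw [mul_sum]
      refine sum_congr rfl fun d _ => ?_
      split_ifs with hd
      · have e : ε j ^ (d.1 + d.2) = ε j ^ D * ε j ^ (d.1 + d.2 - D) := by
          rw [← pow_add]; congr 1; omega
        rw [e]
        ring
      · rw [hσ d (by omega)]
        ring
    rw [h2, h3] at h1
    rcases mul_eq_zero.1 h1 with h4 | h4
    · exact absurd h4 (pow_ne_zero _ (hε0 j))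
    · exact h4
  have hlim : Tendsto (fun j => ∑ d ∈ range (N + 1) ×ˢ range (N + 1), u j d *
      (if D ≤ d.1 + d.2 then ε j ^ (d.1 + d.2 - D) else 0) * mom d) atTop
      (𝓝 (∑ d ∈ range (N + 1) ×ˢ range (N + 1), v d * (if d.1 + d.2 = D then 1 else 0) * mom d)) := by
    refine tendsto_finsetSum _ fun d _ => ?_
    refine ((hu d).mul ?_).mul_const _
    by_cases hd : D ≤ d.1 + d.2
    · simp only [hd, if_true]
      by_cases he : d.1 + d.2 = D
      · simp [he]
      · rw [if_neg he]
        have h1 := hε.pow (d.1 + d.2 - D)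
        rwa [zero_pow (by omega)] at h1
    · simp only [hd, if_false]
      rw [if_neg (by omega)]
      exact tendsto_const_nhds
  refine tendsto_nhds_unique hlim ?_
  have : (fun j => ∑ d ∈ range (N + 1) ×ˢ range (N + 1), u j d *
      (if D ≤ d.1 + d.2 then ε j ^ (d.1 + d.2 - D) else 0) * mom d) = fun _ => (0 : ℝ) := by
    funext j
    exact hz j
  rw [this]
  exact tendsto_const_nhds

end Pool.Agent.W3helper43
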