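import Pool.Agent.W3helper43.LimA
import Pool.Agent.N388.EF.PEEL

/-! Functionals on a staircase set of points, and finite differences. -/

set_option autoImplicit false

namespace Pool.Agent.W3helper43

open Finset Polynomial Filter Topology

/-- the staircase -/
def S1 (k : ℕ) : Finset (ℕ × ℕ) := (Icc 1 k ×ˢ range k).filter (fun q => q.2 < q.1)

theorem mem_S1 {k : ℕ} {q : ℕ × ℕ} : q ∈ S1 k ↔ (1 ≤ q.1 ∧ q.1 ≤ k) ∧ q.2 < q.1 := by
  unfold S1
  rw [mem_filter, mem_product, mem_Icc, mem_range]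
  constructor
  · rintro ⟨⟨h1, -⟩, h2⟩
    exact ⟨h1, h2⟩
  · rintro ⟨h1, h2⟩
    exact ⟨⟨h1, by omega⟩, h2⟩

/-- the staircase is independent on polynomials of degree less than `k` -/
theorem peel1 (k : ℕ) (y : ℕ → ℕ) (b : ℕ × ℕ → ℚ)
    (hb : ∀ i c, i + c < k → ∑ q ∈ S1 k, b q * ((q.1 : ℚ) ^ i * ((y q.1 + q.2 : ℕ) : ℚ) ^ c) = 0) :
    ∀ q ∈ S1 k, b q = 0 := by
  classical
  refine Pool.Agent.N388.EF.t_PEEL (S1 k) b (fun q => ((y q.1 + q.2 : ℕ) : ℚ)) (fun c => k - c) ?_ ?_ ?_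
  · rintro ⟨a, r⟩ - ⟨a', r'⟩ - h1 h2
    simp only at h1 h2
    subst h1
    have h3 : y a + r = y a + r' := by exact_mod_cast h2
    have : r = r' := by omega
    rw [this]
  · intro c
    have hsub : ((S1 k).image Prod.fst).filter
        (fun t => c < ((S1 k).filter (fun q => q.1 = t)).card) ⊆ Icc (c + 1) k := by
      intro t ht
      rw [mem_filter, mem_image] at ht
      obtain ⟨⟨q, hq, rfl⟩, hc⟩ := ht
      rw [mem_S1] at hq
      have h1 : ((S1 k).filter (fun p => p.1 = q.1)).card ≤ q.1 := by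
        have h2 : (S1 k).filter (fun p => p.1 = q.1) ⊆ (range q.1).image (fun r => (q.1, r)) := by
          rintro ⟨a, r⟩ hp
          rw [mem_filter, mem_S1] at hp
          rw [mem_image]
          simp only at hp
          exact ⟨r, by rw [mem_range]; omega, by rw [hp.2]⟩
        refine (card_le_card h2).trans (card_image_le.trans (by simp))
      rw [mem_Icc]
      omega
    have h1 := card_le_card hsub
    rw [Nat.card_Icc] at h1
    omega
  · intro c p hp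
    rcases Nat.lt_or_ge c k with hc | hc
    · have hd : p.natDegree < k - c := by
        rcases eq_or_ne p 0 with h0 | h0
        · rw [h0, natDegree_zero]; omega
        · exact (natDegree_lt_iff_degree_lt h0).2 hp
      have h1 : ∀ q : ℕ × ℕ, b q * p.eval (q.1 : ℚ) * ((y q.1 + q.2 : ℕ) : ℚ) ^ c =
          ∑ i ∈ range (k - c), p.coeff i * (b q * ((q.1 : ℚ) ^ i * ((y q.1 + q.2 : ℕ) : ℚ) ^ c)) := by
        intro q
        rw [eval_eq_sum_range' hd, mul_sum, sum_mul]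
        refine sum_congr rfl fun i _ => ?_
        ring
      simp only [h1]
      rw [sum_comm]
      refine sum_eq_zero fun i hi => ?_
      rw [mem_range] at hi
      rw [← mul_sum, hb i c (by omega), mul_zero]
    · have h0 : p = 0 := by
        rw [show k - c = 0 by omega] at hp
        rw [← degree_eq_bot]
        simpa using hp
      rw [h0]
      simp

/-- **the dual functionals** -/
theorem sig (k : ℕ) (y : ℕ → ℕ) (i0 c0 : ℕ) (h0 : i0 + c0 < k) : ∃ σ : ℕ × ℕ → ℝ,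
    ∀ i c, i + c < k → ∑ q ∈ S1 k, σ q * ((q.1 : ℝ) ^ i * ((y q.1 + q.2 : ℕ) : ℝ) ^ c) =
      if i = i0 ∧ c = c0 then 1 else 0 := by
  classical
  let Φ : (↥(S1 k) → ℚ) →ₗ[ℚ] (↥(S1 k) → ℚ) :=
    { toFun := fun b d => ∑ q : ↥(S1 k), b q * ((q.1.1 : ℚ) ^ d.1.2 *
        ((y q.1.1 + q.1.2 : ℕ) : ℚ) ^ (k - d.1.1))
      map_add' := by
        intro b b'
        funext d
        simp only [Pi.add_apply, add_mul, sum_add_distrib]
      map_smul' := by
        intro r b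
        funext d
        simp only [Pi.smul_apply, smul_eq_mul, RingHom.id_apply, mul_sum]
        refine sum_congr rfl fun q _ => ?_
        ring }
  have hext : ∀ (b : ↥(S1 k) → ℚ) (f : ℕ × ℕ → ℚ), ∑ q : ↥(S1 k), b q * f q.1 =
      ∑ q ∈ S1 k, (if h : q ∈ S1 k then b ⟨q, h⟩ else 0) * f q := by
    intro b f
    rw [← Finset.sum_coe_sort (S1 k)]
    refine sum_congr rfl fun q _ => ?_
    rw [dif_pos q.2]
  have hinj : Function.Injective Φ := by
    rw [← LinearMap.ker_eq_bot, LinearMap.ker_eq_bot']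
    intro b hb
    have h1 := peel1 k y (fun q => if h : q ∈ S1 k then b ⟨q, h⟩ else 0) (by
      intro i c hic
      have hd : ((k - c, i) : ℕ × ℕ) ∈ S1 k := by
        rw [mem_S1]
        simp only
        omega
      have h2 := congrFun hb ⟨(k - c, i), hd⟩
      have h3 := hext b (fun q => (q.1 : ℚ) ^ i * ((y q.1 + q.2 : ℕ) : ℚ) ^ (k - (k - c)))
      rw [show k - (k - c) = c by omega] at h3
      rw [← h3]
      have h4 : Φ b ⟨(k - c, i), hd⟩ = ∑ q : ↥(S1 k), b q * ((q.1.1 : ℚ) ^ i *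
        ((y q.1.1 + q.1.2 : ℕ) : ℚ) ^ (k - (k - c))) := rfl
      rw [show k - (k - c) = c by omega] at h4
      rw [← h4]
      exact h2)
    funext q
    have h2 := h1 q.1 q.2
    rw [dif_pos q.2] at h2
    exact h2
  have hsur := LinearMap.injective_iff_surjective.1 hinj
  have hd0 : ((k - c0, i0) : ℕ × ℕ) ∈ S1 k := by
    rw [mem_S1]
    simp only
    omega
  obtain ⟨b, hb⟩ := hsur (Pi.single ⟨(k - c0, i0), hd0⟩ 1)
  refine ⟨fun q => ((if h : q ∈ S1 k then b ⟨q, h⟩ else 0 : ℚ) : ℝ), fun i c hic => ?_⟩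
  have hd : ((k - c, i) : ℕ × ℕ) ∈ S1 k := by
    rw [mem_S1]
    simp only
    omega
  have h2 := congrFun hb ⟨(k - c, i), hd⟩
  have h4 : Φ b ⟨(k - c, i), hd⟩ = ∑ q : ↥(S1 k), b q * ((q.1.1 : ℚ) ^ i *
    ((y q.1.1 + q.1.2 : ℕ) : ℚ) ^ (k - (k - c))) := rfl
  rw [show k - (k - c) = c by omega] at h4
  rw [h4, hext b (fun q => (q.1 : ℚ) ^ i * ((y q.1 + q.2 : ℕ) : ℚ) ^ c)] at h2
  have h5 : ((∑ q ∈ S1 k, (if h : q ∈ S1 k then b ⟨q, h⟩ else 0) *
      ((q.1 : ℚ) ^ i * ((y q.1 + q.2 : ℕ) : ℚ) ^ c) : ℚ) : ℝ) =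
      ((Pi.single (M := fun _ : ↥(S1 k) => ℚ) ⟨(k - c0, i0), hd0⟩ 1 ⟨(k - c, i), hd⟩ : ℚ) : ℝ) := by
    rw [h2]
  have e : ∑ q ∈ S1 k, ((if h : q ∈ S1 k then b ⟨q, h⟩ else 0 : ℚ) : ℝ) *
      ((q.1 : ℝ) ^ i * ((y q.1 + q.2 : ℕ) : ℝ) ^ c) =
      ((∑ q ∈ S1 k, (if h : q ∈ S1 k then b ⟨q, h⟩ else 0) *
      ((q.1 : ℚ) ^ i * ((y q.1 + q.2 : ℕ) : ℚ) ^ c) : ℚ) : ℝ) := by
    rw [Rat.cast_sum]
    refine sum_congr rfl fun q _ => ?_
    push_cast
    rfl
  rw [e, h5]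
  by_cases h6 : i = i0 ∧ c = c0
  · rw [if_pos h6]
    obtain ⟨rfl, rfl⟩ := h6
    rw [Pi.single_eq_same]
    norm_num
  · rw [if_neg h6, Pi.single_eq_of_ne]
    · norm_num
    · intro h7
      apply h6
      have h8 : ((k - c, i) : ℕ × ℕ) = (k - c0, i0) := congrArg Subtype.val h7
      rw [Prod.mk.injEq] at h8
      omega

/-- finite differences -/
theorem dif (k a : ℕ) (ha : a ≤ k) : ∑ i ∈ range (k + 1), ((-1 : ℝ) ^ (k - i) * (k.choose i : ℕ)) *
    (i : ℝ) ^ a = if a = k then (k.factorial : ℝ) else 0 := by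
  have h1 := fwdDiff_iter_eq_sum_shift (1 : ℝ) (fun r : ℝ => r ^ a) k 0
  have h2 : ∑ i ∈ range (k + 1), ((-1 : ℝ) ^ (k - i) * (k.choose i : ℕ)) * (i : ℝ) ^ a =
      ∑ i ∈ range (k + 1), ((-1 : ℤ) ^ (k - i) * (k.choose i : ℕ)) • ((0 : ℝ) + i • (1 : ℝ)) ^ a := by
    refine sum_congr rfl fun i _ => ?_
    rw [zsmul_eq_mul]
    push_cast
    rw [zero_add, nsmul_eq_mul, mul_one]
  rw [h2, ← h1]
  split_ifs with h3
  · subst h3
    have := congrFun (fwdDiff_iter_eq_factorial (R := ℝ) (n := a)) 0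
    rw [this]
    rfl
  · have := congrFun (fwdDiff_iter_pow_eq_zero_of_lt (R := ℝ) (j := a) (n := k) (by omega)) 0
    rw [this]
    rfl

end Pool.Agent.W3helper43
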