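import Pool.Agent.W3helper43.LimA

/-! The algebra of the limit: a polynomial with a point of multiplicity `k` and a weighted row
structure is a power of a linear form. -/

set_option autoImplicit false

namespace Pool.Agent.W3helper43

open Finset Polynomial

/-- the inner linear form `ξ - T - Y` -/
noncomputable def Lv (ξ : ℝ) : ℝ[X][X] := C (C ξ - X) - X

theorem Lv_natDegree (ξ : ℝ) : (Lv ξ).natDegree ≤ 1 := by
  unfold Lv
  refine (natDegree_sub_le _ _).trans (max_le (by rw [natDegree_C]; omega) natDegree_X_le)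

theorem Lv_pow_coeff (ξ : ℝ) (n : ℕ) : ((Lv ξ) ^ n).coeff n = C ((-1) ^ n) := by
  have h1 := coeff_pow_of_natDegree_le (p := Lv ξ) (n := 1) (m := n) (Lv_natDegree ξ)
  rw [mul_one] at h1
  rw [h1]
  have h2 : (Lv ξ).coeff 1 = C (-1) := by
    unfold Lv
    rw [coeff_sub, coeff_C_of_ne_zero (by norm_num), coeff_X_one, zero_sub, C_neg, C_1]
  rw [h2, C_pow]

theorem Lv_pow_coeff_lt (ξ : ℝ) {n c : ℕ} (h : n < c) : ((Lv ξ) ^ n).coeff c = 0 := by
  apply coeff_eq_zero_of_natDegree_lt
  refine lt_of_le_of_lt (natDegree_pow_le) ?_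
  have := Lv_natDegree ξ
  nlinarith

/-- descending induction -/
theorem desc {k : ℕ} {ξ : ℝ} (β : ℕ → ℕ) (H : ℕ → ℝ[X]) (hH : ∀ n < k, (H n).degree < ((k - n : ℕ) : WithBot ℕ))
    (h : ∀ i c, i + c < k → ((∑ n ∈ range k, C ((X - 1) ^ β n * H n) * (Lv ξ) ^ n).coeff c).coeff i = 0) :
    ∀ n < k, H n = 0 := by
  have key : ∀ r, ∀ n < k, k ≤ n + r → H n = 0 := by
    intro r
    induction r with
    | zero =>
      intro n hn h1
      omega
    | succ r ih =>
      intro n hn h1
      have h2 : (∑ n ∈ range k, C ((X - 1) ^ β n * H n) * (Lv ξ) ^ n).coeff n =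
          (X - 1) ^ β n * H n * C ((-1) ^ n) := by
        rw [finsetSum_coeff, sum_eq_single n]
        · rw [coeff_C_mul, Lv_pow_coeff]
        · intro b hb hbn
          rw [mem_range] at hb
          rw [coeff_C_mul]
          rcases Nat.lt_or_ge b n with h3 | h3
          · rw [Lv_pow_coeff_lt ξ h3, mul_zero]
          · rw [ih b hb (by omega), mul_zero, zero_mul]
        · intro h3
          exact absurd (mem_range.2 hn) h3
      have h3 : (X : ℝ[X]) ^ (k - n) ∣ (X - 1) ^ β n * H n := by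
        rw [X_pow_dvd_iff]
        intro i hi
        have h4 := h i n (by omega)
        rw [h2, coeff_mul_C] at h4
        rcases mul_eq_zero.1 h4 with h5 | h5
        · exact h5
        · exact absurd h5 (pow_ne_zero _ (by norm_num))
      have h4 : IsCoprime ((X : ℝ[X]) ^ (k - n)) ((X - 1) ^ β n) := by
        apply IsCoprime.pow
        refine ⟨1, -1, ?_⟩
        ring
      have h5 := h4.dvd_of_dvd_mul_left h3
      by_contra h6
      have h7 := degree_le_of_dvd h5 h6
      rw [degree_X_pow] at h7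
      exact absurd (hH n hn) (not_lt.2 h7)
  intro n hn
  exact key k n hn (by omega)

/-- the binomial power has only terms of degree `k` -/
theorem lin_coeff (k : ℕ) (s : ℝ) (i c : ℕ) : (((X + C (C s * X) : ℝ[X][X]) ^ k).coeff c).coeff i =
    if i + c = k then (k.choose c : ℝ) * s ^ i else 0 := by
  rw [add_comm, add_pow, finsetSum_coeff, finsetSum_coeff]
  have h1 : ∀ n ∈ range (k + 1), (((C (C s * X) : ℝ[X][X]) ^ n * X ^ (k - n) *
      ((k.choose n : ℕ) : ℝ[X][X])).coeff c).coeff i =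
      if c = k - n ∧ i = n then (k.choose n : ℝ) * s ^ n else 0 := by
    intro n _
    have e : (C (C s * X) : ℝ[X][X]) ^ n * X ^ (k - n) * ((k.choose n : ℕ) : ℝ[X][X]) =
        C (C ((k.choose n : ℝ) * s ^ n) * X ^ n) * X ^ (k - n) := by
      rw [← C_pow, mul_pow, ← C_pow]
      have e2 : ((k.choose n : ℕ) : ℝ[X][X]) = C (C (k.choose n : ℝ)) := by simp
      rw [e2]
      simp only [C_mul]
      ring
    rw [e, coeff_C_mul, coeff_X_pow]
    by_cases hc : c = k - n
    · rw [if_pos hc, mul_one, coeff_C_mul, coeff_X_pow]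
      by_cases hi : i = n
      · rw [if_pos hi, if_pos ⟨hc, hi⟩, mul_one]
      · rw [if_neg hi, if_neg (fun h => hi h.2), mul_zero]
    · rw [if_neg hc, if_neg (fun h => hc h.1), mul_zero, coeff_zero]
  rw [sum_congr rfl h1]
  split_ifs with h2
  · rw [sum_eq_single i]
    · rw [if_pos ⟨by omega, rfl⟩]
      have : k.choose i = k.choose c := by
        rw [← h2]
        exact Nat.choose_symm_add
      rw [this]
    · intro n _ hn
      rw [if_neg (fun h => hn h.2.symm)]
    · intro h3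
      exact absurd (mem_range.2 (by omega)) h3
  · refine sum_eq_zero fun n hn => ?_
    rw [mem_range] at hn
    rw [if_neg]
    rintro ⟨h3, h4⟩
    omega

/-- **the limit** -/
theorem limit_alg {k : ℕ} {ξ : ℝ} (hξ : ξ ≠ 2) (β : ℕ → ℕ) (hβ : ∀ n < k, 1 ≤ β n ∧ β n ≤ k - n)
    (hβk : β k = 0) (G : ℕ → ℝ[X]) (hG : ∀ n < k, (G n).degree < ((k - n : ℕ) : WithBot ℕ))
    (a : ℝ) (hGk : G k = C a)
    (h : ∀ i c, i + c < k → ((∑ n ∈ range (k + 1), C ((X - 1) ^ β n * G n) * (Lv ξ) ^ n).coeff c).coeff i = 0)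
    (h2 : ∑ c ∈ range (k + 1),
      ((∑ n ∈ range (k + 1), C ((X - 1) ^ β n * G n) * (Lv ξ) ^ n).coeff c).coeff (k - c) = 0) :
    ∀ n ≤ k, G n = 0 := by
  obtain ⟨U, hU⟩ : ∃ U : ℝ[X][X], U = ∑ n ∈ range (k + 1), C ((X - 1) ^ β n * G n) * (Lv ξ) ^ n := ⟨_, rfl⟩
  rw [← hU] at h2
  simp only [← hU] at h
  obtain ⟨a', ha'⟩ : ∃ a' : ℝ, a' = a * (-1) ^ k := ⟨_, rfl⟩
  obtain ⟨H, hH⟩ : ∃ H : ℕ → ℝ[X], H = fun n => G n - C (a' * (k.choose n) * (-1) ^ n * ξ ^ (k - n) *
    (-1) ^ (k - n)) * (X - 1) ^ (k - n - β n) := ⟨_, rfl⟩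
  have hexp : ((X + C (C (1 - ξ) * X) : ℝ[X][X]) ^ k) = ∑ n ∈ range (k + 1),
      C (C ((k.choose n : ℝ) * (-1) ^ n * ξ ^ (k - n) * (-1) ^ (k - n)) * (X - 1) ^ (k - n)) * (Lv ξ) ^ n := by
    have e : (X + C (C (1 - ξ) * X) : ℝ[X][X]) = -Lv ξ + C (C (-ξ) * (X - 1)) := by
      unfold Lv
      simp only [map_sub, map_mul, map_neg, map_one]
      ring
    rw [e, add_pow]
    refine sum_congr rfl fun n _ => ?_
    have e2 : ((k.choose n : ℕ) : ℝ[X][X]) = C (C (k.choose n : ℝ)) := by simp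
    rw [e2, neg_pow, ← C_pow, mul_pow, ← C_pow, neg_pow ξ]
    simp only [map_mul, map_pow, map_neg, map_one]
    ring
  have hZ : U - C (C a') * (X + C (C (1 - ξ) * X)) ^ k =
      ∑ n ∈ range k, C ((X - 1) ^ β n * H n) * (Lv ξ) ^ n := by
    have h3 : U - C (C a') * (X + C (C (1 - ξ) * X)) ^ k =
        ∑ n ∈ range (k + 1), C ((X - 1) ^ β n * H n) * (Lv ξ) ^ n := by
      rw [hU, hexp, mul_sum, ← sum_sub_distrib]
      refine sum_congr rfl fun n hn => ?_
      rw [mem_range, Nat.lt_succ_iff] at hn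
      rw [hH]
      simp only
      have h4 : (X - 1 : ℝ[X]) ^ (k - n) = (X - 1) ^ β n * (X - 1) ^ (k - n - β n) := by
        rw [← pow_add]
        congr 1
        rcases Nat.lt_or_ge n k with h5 | h5
        · have := (hβ n h5).2
          omega
        · have : n = k := by omega
          subst this
          rw [hβk]
          omega
      rw [h4]
      simp only [map_mul, map_sub]
      ring
    rw [h3, sum_range_succ]
    have h4 : H k = 0 := by
      rw [hH]
      simp only
      rw [hGk, hβk, ha']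
      simp only [Nat.choose_self, Nat.cast_one, Nat.sub_self, pow_zero, mul_one]
      rw [mul_assoc, ← mul_pow]
      norm_num
    rw [h4, mul_zero, C_0, zero_mul, add_zero]
  have hHd : ∀ n < k, (H n).degree < ((k - n : ℕ) : WithBot ℕ) := by
    intro n hn
    rw [hH]
    simp only
    refine lt_of_le_of_lt (degree_sub_le _ _) (max_lt (hG n hn) ?_)
    refine lt_of_le_of_lt ((degree_mul_le _ _).trans ((add_le_add degree_C_le le_rfl).trans
      (by rw [zero_add]))) ?_
    refine lt_of_le_of_lt (degree_pow_le _ _) ?_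
    have h3 : (X - 1 : ℝ[X]).degree = 1 := by
      rw [← C_1]; exact degree_X_sub_C 1
    rw [h3]
    have h4 := (hβ n hn).1
    rw [nsmul_one]
    have : k - n - β n < k - n := by omega
    exact_mod_cast this
  have hH0 := desc (ξ := ξ) β H hHd (by
    intro i c hic
    rw [← hZ, coeff_sub, coeff_sub, h i c hic, coeff_C_mul, coeff_C_mul, lin_coeff, if_neg (by omega)]
    ring)
  have hU2 : U = C (C a') * (X + C (C (1 - ξ) * X)) ^ k := by
    have h3 : ∑ n ∈ range k, C ((X - 1) ^ β n * H n) * (Lv ξ) ^ n = 0 := by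
      refine sum_eq_zero fun n hn => ?_
      rw [mem_range] at hn
      rw [hH0 n hn, mul_zero, C_0, zero_mul]
    rw [h3] at hZ
    exact sub_eq_zero.1 hZ
  have ha0 : a' = 0 := by
    rw [hU2] at h2
    have h3 : ∑ c ∈ range (k + 1), ((C (C a') * (X + C (C (1 - ξ) * X) : ℝ[X][X]) ^ k).coeff c).coeff (k - c) =
        a' * (2 - ξ) ^ k := by
      have h4 : (2 - ξ) ^ k = ∑ c ∈ range (k + 1), (k.choose c : ℝ) * (1 - ξ) ^ (k - c) := by
        have : (2 - ξ) = 1 + (1 - ξ) := by ring
        rw [this, add_pow]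
        refine sum_congr rfl fun c _ => ?_
        rw [one_pow]
        ring
      rw [h4, mul_sum]
      refine sum_congr rfl fun c hc => ?_
      rw [mem_range, Nat.lt_succ_iff] at hc
      rw [coeff_C_mul, coeff_C_mul, lin_coeff, if_pos (by omega)]
    rw [h3] at h2
    rcases mul_eq_zero.1 h2 with h4 | h4
    · exact h4
    · exfalso
      have h5 := eq_zero_of_pow_eq_zero h4
      apply hξ
      linarith
  intro n hn
  rcases Nat.lt_or_ge n k with h3 | h3
  · have h4 := hH0 n h3
    rw [hH] at h4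
    simp only at h4
    rw [ha0] at h4
    simpa using h4
  · have h4 : n = k := by omega
    subst h4
    rw [hGk]
    rw [ha'] at ha0
    rcases mul_eq_zero.1 ha0 with h5 | h5
    · rw [h5, C_0]
    · exact absurd h5 (pow_ne_zero _ (by norm_num))

end Pool.Agent.W3helper43
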