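import Pool.Agent.W3helper43.LimB
import Pool.Agent.W3helper43.LimC

/-! The test system has only the zero solution for large `m`. -/

set_option autoImplicit false

namespace Pool.Agent.W3helper43

open Finset Polynomial Filter Topology

/-- the index set: `(n, i)` with `n ≤ k`, `i < max (k - n) 1` -/
def S (k : ℕ) : Finset (ℕ × ℕ) := (range (k + 1) ×ˢ range (k + 1)).filter (fun p => p.2 < max (k - p.1) 1)

theorem mem_S {k : ℕ} {p : ℕ × ℕ} : p ∈ S k ↔ p.1 ≤ k ∧ p.2 < max (k - p.1) 1 := by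
  unfold S
  rw [mem_filter, mem_product, mem_range, mem_range]
  constructor
  · rintro ⟨⟨h1, -⟩, h2⟩
    exact ⟨by omega, h2⟩
  · rintro ⟨h1, h2⟩
    exact ⟨⟨by omega, by omega⟩, h2⟩

/-- the test function -/
def W (k : ℕ) (B : ℕ → Finset ℕ) (m x : ℝ) (g : ℕ × ℕ → ℝ) (t J : ℝ) : ℝ :=
  ∑ p ∈ S k, g p * t ^ p.2 * (∏ s ∈ B p.1, (t - m + s)) * ∏ i ∈ range p.1, (x - i - t - J)

/-- the family -/
noncomputable def UU (k : ℕ) (B : ℕ → Finset ℕ) (e : Par) : ℝ[X][X] :=
  ∑ p ∈ S k, (C (C (e.2.2 p)) * C (X ^ p.2) *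
    ∏ s ∈ B p.1, (C (C ((s : ℝ) * e.1 - 1) + C 1 * X) + C (C 0) * X)) *
    ∏ i ∈ range p.1, (C (C (e.2.1 - (i : ℝ) * e.1) + C (-1) * X) + C (C (-1)) * X)

theorem UU_GP (k : ℕ) (B : ℕ → Finset ℕ) (hB : ∀ n ≤ k, (B n).card ≤ k) : GP (3 * k) (UU k B) := by
  unfold UU
  refine GP.sum _ fun p hp => ?_
  rw [mem_S] at hp
  have h1 : GP 0 (fun e : Par => (C (C (e.2.2 p)) : ℝ[X][X])) :=
    GP.const ((continuous_apply p).comp (continuous_snd.comp continuous_snd))
  have h2 := h1.mul (GP.pow p.2)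
  have h3 : GP (B p.1).card (fun e : Par => ∏ s ∈ B p.1,
      (C (C ((s : ℝ) * e.1 - 1) + C 1 * X) + C (C 0) * X : ℝ[X][X])) :=
    GP.prod _ fun s _ => GP.lin 1 0 ((continuous_const.mul continuous_fst).sub continuous_const)
  have h4 : GP (range p.1).card (fun e : Par => ∏ i ∈ range p.1,
      (C (C (e.2.1 - (i : ℝ) * e.1) + C (-1) * X) + C (C (-1)) * X : ℝ[X][X])) :=
    GP.prod _ fun i _ => GP.lin (-1) (-1)
      ((continuous_fst.comp continuous_snd).sub (continuous_const.mul continuous_fst))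
  have h5 := (h2.mul h3).mul h4
  rw [card_range] at h5
  refine h5.mono ?_
  have := hB p.1 hp.1
  omega

theorem ev_UU (k : ℕ) (B : ℕ → Finset ℕ) (e : Par) (τ υ : ℝ) : ev (UU k B e) τ υ =
    ∑ p ∈ S k, e.2.2 p * τ ^ p.2 * (∏ s ∈ B p.1, (τ - 1 + s * e.1)) *
      ∏ i ∈ range p.1, (e.2.1 - i * e.1 - τ - υ) := by
  unfold ev UU
  rw [eval_finsetSum, eval_finsetSum]
  refine sum_congr rfl fun p _ => ?_
  simp only [eval_mul, eval_prod, eval_add, eval_C, eval_X, eval_pow]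
  congr 1
  · congr 1
    refine prod_congr rfl fun s _ => ?_
    ring
  · refine prod_congr rfl fun i _ => ?_
    ring

theorem UU_zero (k : ℕ) (B : ℕ → Finset ℕ) (ξ : ℝ) (γ : ℕ × ℕ → ℝ) : UU k B (0, ξ, γ) =
    ∑ n ∈ range (k + 1), C ((X - 1) ^ (B n).card * ∑ i ∈ range (max (k - n) 1), C (γ (n, i)) * X ^ i) *
      (Lv ξ) ^ n := by
  unfold UU
  have h1 : ∀ n ∈ range (k + 1), C ((X - 1) ^ (B n).card * ∑ i ∈ range (max (k - n) 1), C (γ (n, i)) * X ^ i) *
      (Lv ξ) ^ n = ∑ i ∈ range (k + 1), if i < max (k - n) 1 then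
        C ((X - 1) ^ (B n).card * (C (γ (n, i)) * X ^ i)) * (Lv ξ) ^ n else 0 := by
    intro n hn
    rw [mul_sum, map_sum, sum_mul]
    rw [← sum_filter]
    have h0 : (range (k + 1)).filter (fun i => i < max (k - n) 1) = range (max (k - n) 1) := by
      ext i
      rw [mem_filter, mem_range, mem_range]
      omega
    rw [h0]
  rw [sum_congr rfl h1]
  unfold S
  rw [sum_filter, sum_product]
  refine sum_congr rfl fun n _ => sum_congr rfl fun i _ => ?_
  simp only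
  split_ifs with h2
  · have e1 : ∏ s ∈ B n, (C (C ((s : ℝ) * 0 - 1) + C 1 * X) + C (C 0) * X : ℝ[X][X]) =
        C ((X - 1) ^ (B n).card) := by
      have : ∀ s ∈ B n, (C (C ((s : ℝ) * 0 - 1) + C 1 * X) + C (C 0) * X : ℝ[X][X]) = C (X - 1) := by
        intro s _
        simp only [mul_zero, zero_sub, map_neg, map_one, one_mul, map_zero, zero_mul, add_zero]
        rw [neg_add_eq_sub]
      rw [prod_congr rfl this, prod_const, C_pow]
    have e2 : ∏ i ∈ range n, (C (C (ξ - (i : ℝ) * 0) + C (-1) * X) + C (C (-1)) * X : ℝ[X][X]) =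
        (Lv ξ) ^ n := by
      have : ∀ i ∈ range n, (C (C (ξ - (i : ℝ) * 0) + C (-1) * X) + C (C (-1)) * X : ℝ[X][X]) = Lv ξ := by
        intro i _
        unfold Lv
        simp only [mul_zero, sub_zero, map_neg, map_one, neg_mul, one_mul]
        rw [← sub_eq_add_neg]
        ring
      rw [prod_congr rfl this, prod_const, card_range]
    rw [e1, e2]
    simp only [map_mul]
    ring
  · rfl

/-- **for large `m` the system has only the zero solution** -/
theorem LIM (k : ℕ) (hk : 1 ≤ k) (B : ℕ → Finset ℕ) (hB : ∀ n < k, 1 ≤ (B n).card ∧ (B n).card ≤ k - n)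
    (hBk : B k = ∅) (y : ℕ → ℕ) (hy0 : y 0 = 0) (hy : ∀ t, 1 ≤ t → t ≤ k → 1 ≤ y t ∧ y t ≤ t)
    (ξ : ℝ) (hξ : ξ ≠ 2) (Cst : ℝ) : ∀ᶠ m : ℕ in atTop, ∀ x : ℕ, |(x : ℝ) - ξ * m| ≤ Cst →
      ∀ g : ℕ × ℕ → ℝ, (∀ p ∈ S k, W k B m x g ((k - p.1 : ℕ) : ℝ) ((y (k - p.1) + p.2 : ℕ) : ℝ) = 0) →
        ∀ p ∈ S k, g p = 0 := by
  classical
  by_contra hcon
  rw [Filter.not_eventually] at hcon
  obtain ⟨φ, hφ, hφ'⟩ := Filter.extraction_of_frequently_atTop (hcon.and_eventually (eventually_ge_atTop 1))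
  have hex : ∀ j, ∃ x : ℕ, |(x : ℝ) - ξ * φ j| ≤ Cst ∧ ∃ γ : ℕ × ℕ → ℝ,
      (∀ p, γ p ∈ Set.Icc (-1 : ℝ) 1) ∧ ∑ p ∈ S k, |γ p| = 1 ∧
      ∀ p ∈ S k, ev (UU k B (1 / (φ j : ℝ), (x : ℝ) / φ j, γ)) (((k - p.1 : ℕ) : ℝ) * (1 / φ j))
        (((y (k - p.1) + p.2 : ℕ) : ℝ) * (1 / φ j)) = 0 := by
    intro j
    obtain ⟨h1, h2⟩ := hφ' j
    push Not at h1
    obtain ⟨x, hx, g, hg, p0, hp0, hgp0⟩ := h1
    refine ⟨x, hx, ?_⟩
    have hm : (0 : ℝ) < φ j := by exact_mod_cast h2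
    obtain ⟨γ', hγ'⟩ : ∃ γ' : ℕ × ℕ → ℝ, γ' = fun p => if p ∈ S k then
      g p * (φ j : ℝ) ^ (p.2 + (B p.1).card + p.1) else 0 := ⟨_, rfl⟩
    obtain ⟨n0, hn0⟩ : ∃ n0 : ℝ, n0 = ∑ p ∈ S k, |γ' p| := ⟨_, rfl⟩
    have hn0pos : 0 < n0 := by
      rw [hn0]
      refine sum_pos' (fun p _ => abs_nonneg _) ⟨p0, hp0, ?_⟩
      rw [abs_pos, hγ']
      simp only [if_pos hp0]
      exact mul_ne_zero hgp0 (pow_ne_zero _ hm.ne')
    refine ⟨fun p => γ' p / n0, ?_, ?_, ?_⟩
    · intro p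
      rw [Set.mem_Icc, ← abs_le, abs_div, abs_of_pos hn0pos, div_le_one hn0pos, hn0]
      by_cases hp : p ∈ S k
      · exact single_le_sum (f := fun p => |γ' p|) (fun p _ => abs_nonneg _) hp
      · rw [hγ']
        simp only [if_neg hp, abs_zero]
        exact sum_nonneg fun p _ => abs_nonneg _
    · simp only [abs_div, abs_of_pos hn0pos]
      rw [← sum_div, ← hn0, div_self hn0pos.ne']
    · intro p hp
      rw [ev_UU]
      have h3 := hg p hp
      unfold W at h3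
      have h4 : ∑ q ∈ S k, γ' q / n0 * ((((k - p.1 : ℕ) : ℝ) * (1 / φ j)) ^ q.2) *
          (∏ s ∈ B q.1, ((((k - p.1 : ℕ) : ℝ) * (1 / φ j)) - 1 + s * (1 / φ j))) *
          ∏ i ∈ range q.1, ((x : ℝ) / φ j - i * (1 / φ j) - ((k - p.1 : ℕ) : ℝ) * (1 / φ j) -
            ((y (k - p.1) + p.2 : ℕ) : ℝ) * (1 / φ j)) =
          (∑ q ∈ S k, g q * ((k - p.1 : ℕ) : ℝ) ^ q.2 * (∏ s ∈ B q.1, (((k - p.1 : ℕ) : ℝ) - φ j + s)) *
            ∏ i ∈ range q.1, ((x : ℝ) - i - ((k - p.1 : ℕ) : ℝ) - ((y (k - p.1) + p.2 : ℕ) : ℝ))) / n0 := by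
        rw [sum_div]
        refine sum_congr rfl fun q hq => ?_
        have e1 : ∏ s ∈ B q.1, ((((k - p.1 : ℕ) : ℝ) * (1 / φ j)) - 1 + s * (1 / φ j)) =
            (∏ s ∈ B q.1, (((k - p.1 : ℕ) : ℝ) - φ j + s)) * (1 / (φ j : ℝ)) ^ (B q.1).card := by
          rw [← prod_const, ← prod_mul_distrib]
          refine prod_congr rfl fun s _ => ?_
          field_simp
        have e2 : ∏ i ∈ range q.1, ((x : ℝ) / φ j - i * (1 / φ j) - ((k - p.1 : ℕ) : ℝ) * (1 / φ j) -
            ((y (k - p.1) + p.2 : ℕ) : ℝ) * (1 / φ j)) =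
            (∏ i ∈ range q.1, ((x : ℝ) - i - ((k - p.1 : ℕ) : ℝ) - ((y (k - p.1) + p.2 : ℕ) : ℝ))) *
              (1 / (φ j : ℝ)) ^ q.1 := by
          have e3 : (1 / (φ j : ℝ)) ^ q.1 = ∏ _i ∈ range q.1, (1 / (φ j : ℝ)) := by
            rw [prod_const, card_range]
          rw [e3, ← prod_mul_distrib]
          refine prod_congr rfl fun s _ => ?_
          field_simp
        rw [e1, e2, hγ']
        simp only [if_pos hq]
        rw [mul_pow, pow_add, pow_add]
        have h5 : (φ j : ℝ) ^ q.2 * (1 / (φ j : ℝ)) ^ q.2 = 1 := by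
          rw [← mul_pow, mul_one_div_cancel hm.ne', one_pow]
        have h6 : (φ j : ℝ) ^ (B q.1).card * (1 / (φ j : ℝ)) ^ (B q.1).card = 1 := by
          rw [← mul_pow, mul_one_div_cancel hm.ne', one_pow]
        have h7 : (φ j : ℝ) ^ q.1 * (1 / (φ j : ℝ)) ^ q.1 = 1 := by
          rw [← mul_pow, mul_one_div_cancel hm.ne', one_pow]
        linear_combination (g q * ((k - p.1 : ℕ) : ℝ) ^ q.2 *
          (∏ s ∈ B q.1, (((k - p.1 : ℕ) : ℝ) - φ j + s)) *
          (∏ i ∈ range q.1, ((x : ℝ) - i - ((k - p.1 : ℕ) : ℝ) - ((y (k - p.1) + p.2 : ℕ) : ℝ))) / n0) *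
          ((φ j : ℝ) ^ (B q.1).card * (1 / (φ j : ℝ)) ^ (B q.1).card * ((φ j : ℝ) ^ q.1 * (1 / (φ j : ℝ)) ^ q.1) * h5 +
            ((φ j : ℝ) ^ q.1 * (1 / (φ j : ℝ)) ^ q.1) * h6 + h7)
      simp only
      rw [h4, h3, zero_div]
  choose xs hxs γs hγ1 hγ2 hγ3 using hex
  have hcomp : IsCompact (Set.pi Set.univ fun _ : ℕ × ℕ => Set.Icc (-1 : ℝ) 1) :=
    isCompact_univ_pi fun _ => isCompact_Icc
  obtain ⟨γ0, -, ψ, hψ, hlim⟩ := hcomp.tendsto_subseq (x := γs) (fun j => by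
    rw [Set.mem_univ_pi]
    exact hγ1 j)
  have hφψ : Tendsto (fun j => φ (ψ j)) atTop atTop := hφ.tendsto_atTop.comp hψ.tendsto_atTop
  have hφψR : Tendsto (fun j => (φ (ψ j) : ℝ)) atTop atTop := tendsto_natCast_atTop_atTop.comp hφψ
  have hε : Tendsto (fun j => 1 / (φ (ψ j) : ℝ)) atTop (𝓝 0) := by
    simp only [one_div]
    exact tendsto_inv_atTop_zero.comp hφψR
  have hpos : ∀ j, (0 : ℝ) < φ (ψ j) := by
    intro j
    have := (hφ' (ψ j)).2
    exact_mod_cast this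
  have hx : Tendsto (fun j => (xs (ψ j) : ℝ) / φ (ψ j)) atTop (𝓝 ξ) := by
    rw [tendsto_iff_dist_tendsto_zero]
    have h1 : Tendsto (fun j => Cst * (1 / (φ (ψ j) : ℝ))) atTop (𝓝 0) := by
      have := hε.const_mul Cst
      simpa using this
    refine squeeze_zero (fun j => dist_nonneg) (fun j => ?_) h1
    rw [Real.dist_eq]
    have h2 : (xs (ψ j) : ℝ) / φ (ψ j) - ξ = ((xs (ψ j) : ℝ) - ξ * φ (ψ j)) * (1 / φ (ψ j)) := by
      have := (hpos j).ne'
      field_simp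
    rw [h2, abs_mul, abs_of_pos (one_div_pos.2 (hpos j))]
    exact mul_le_mul_of_nonneg_right (hxs (ψ j)) (one_div_pos.2 (hpos j)).le
  have hGP : GP (3 * k) (UU k B) := UU_GP k B (fun n hn => by
    rcases Nat.lt_or_ge n k with h1 | h1
    · have := (hB n h1).2
      omega
    · have : n = k := by omega
      rw [this, hBk]
      simp)
  have hE : Tendsto (fun j => ((1 / (φ (ψ j) : ℝ), (xs (ψ j) : ℝ) / φ (ψ j), γs (ψ j)) : Par)) atTop
      (𝓝 (0, ξ, γ0)) := hε.prodMk_nhds (hx.prodMk_nhds hlim)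
  have hcoef : ∀ d : ℕ × ℕ, Tendsto (fun j => ((UU k B (1 / (φ (ψ j) : ℝ), (xs (ψ j) : ℝ) / φ (ψ j),
      γs (ψ j))).coeff d.2).coeff d.1) atTop (𝓝 (((UU k B (0, ξ, γ0)).coeff d.2).coeff d.1)) := fun d =>
    ((hGP.ct d.2 d.1).tendsto _).comp hE
  have hev : ∀ j, ∀ p ∈ S k, ∑ d ∈ range (3 * k + 1) ×ˢ range (3 * k + 1),
      ((UU k B (1 / (φ (ψ j) : ℝ), (xs (ψ j) : ℝ) / φ (ψ j), γs (ψ j))).coeff d.2).coeff d.1 *
        ((((k - p.1 : ℕ) : ℝ) * (1 / φ (ψ j))) ^ d.1 *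
          (((y (k - p.1) + p.2 : ℕ) : ℝ) * (1 / φ (ψ j))) ^ d.2) = 0 := by
    intro j p hp
    rw [← ev_eq (fun c i h => hGP.bd _ c i h)]
    exact hγ3 (ψ j) p hp
  have hε0 : ∀ j, 1 / (φ (ψ j) : ℝ) ≠ 0 := fun j => (one_div_pos.2 (hpos j)).ne'
  -- the jets
  have hjet : ∀ i c, i + c < k → ((UU k B (0, ξ, γ0)).coeff c).coeff i = 0 := by
    intro i0 c0 h0
    obtain ⟨σ, hσ⟩ := sig k y i0 c0 h0
    have h1 := lim_fun (N := 3 * k) (D := i0 + c0) (S1 k) σ (fun q => (q.1 : ℝ))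
      (fun q => ((y q.1 + q.2 : ℕ) : ℝ)) (by
        intro d hd
        rw [hσ d.1 d.2 (by omega), if_neg (by omega)]) _ _ hcoef _ hε0 hε (by
        intro j q hq
        rw [mem_S1] at hq
        have h2 := hev j (k - q.1, q.2) (by
          rw [mem_S]
          simp only
          omega)
        simp only at h2
        rw [show k - (k - q.1) = q.1 by omega] at h2
        exact h2)
    rw [sum_eq_single (i0, c0)] at h1
    · simp only at h1
      rw [if_pos trivial, hσ i0 c0 h0, if_pos ⟨rfl, rfl⟩] at h1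
      simpa using h1
    · rintro ⟨i, c⟩ - hd
      simp only
      by_cases h3 : i + c = i0 + c0
      · rw [hσ i c (by omega), if_neg (c := i = i0 ∧ c = c0) (by
          rintro ⟨h4, h5⟩
          exact hd (by rw [h4, h5])), mul_zero]
      · rw [if_neg h3, mul_zero, zero_mul]
    · intro h3
      exfalso
      apply h3
      rw [mem_product, mem_range, mem_range]
      simp only
      omega
  -- the diagonal
  have hdiag : ∑ c ∈ range (k + 1), ((UU k B (0, ξ, γ0)).coeff c).coeff (k - c) = 0 := by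
    have hmom : ∀ d : ℕ × ℕ, d.1 + d.2 ≤ k → ∑ q ∈ range (k + 1), ((-1 : ℝ) ^ (k - q) * (k.choose q : ℕ)) *
        ((q : ℝ) ^ d.1 * (q : ℝ) ^ d.2) = if d.1 + d.2 = k then (k.factorial : ℝ) else 0 := by
      intro d hd
      rw [← dif k (d.1 + d.2) hd]
      refine sum_congr rfl fun q _ => ?_
      rw [pow_add]
    have h1 := lim_fun (N := 3 * k) (D := k) (range (k + 1))
      (fun q => ((-1 : ℝ) ^ (k - q) * (k.choose q : ℕ))) (fun q => (q : ℝ)) (fun q => (q : ℝ)) (by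
        intro d hd
        rw [hmom d hd.le, if_neg (by omega)]) _ _ hcoef _ hε0 hε (by
        intro j q hq
        rw [mem_range] at hq
        rcases Nat.eq_zero_or_pos q with h2 | h2
        · subst h2
          have h3 := hev j (k, 0) (by
            rw [mem_S]
            simp only
            omega)
          simp only at h3
          rw [Nat.sub_self, hy0] at h3
          exact h3
        · have h4 := hy q h2 (by omega)
          have h3 := hev j (k - q, q - y q) (by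
            rw [mem_S]
            simp only
            omega)
          simp only at h3
          rw [show k - (k - q) = q by omega, show y q + (q - y q) = q by omega] at h3
          exact h3)
    have h2 : ∑ d ∈ range (3 * k + 1) ×ˢ range (3 * k + 1), ((UU k B (0, ξ, γ0)).coeff d.2).coeff d.1 *
        (if d.1 + d.2 = k then 1 else 0) * ∑ q ∈ range (k + 1), ((-1 : ℝ) ^ (k - q) * (k.choose q : ℕ)) *
        ((q : ℝ) ^ d.1 * (q : ℝ) ^ d.2) =
        ∑ d ∈ range (3 * k + 1) ×ˢ range (3 * k + 1), (if d.1 + d.2 = k then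
          ((UU k B (0, ξ, γ0)).coeff d.2).coeff d.1 * (k.factorial : ℝ) else 0) := by
      refine sum_congr rfl fun d _ => ?_
      split_ifs with h3
      · rw [hmom d h3.le, if_pos h3]
        ring
      · ring
    rw [h2, sum_product_right] at h1
    have h4 : ∀ c ∈ range (3 * k + 1), ∑ i ∈ range (3 * k + 1), (if i + c = k then
        ((UU k B (0, ξ, γ0)).coeff c).coeff i * (k.factorial : ℝ) else 0) =
        if c ∈ range (k + 1) then ((UU k B (0, ξ, γ0)).coeff c).coeff (k - c) * (k.factorial : ℝ) else 0 := by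
      intro c hc
      rw [mem_range] at hc
      split_ifs with h5
      · rw [mem_range] at h5
        rw [sum_eq_single (k - c)]
        · rw [if_pos (by omega)]
        · intro i _ hi
          rw [if_neg (by omega)]
        · intro h6
          exact absurd (mem_range.2 (by omega)) h6
      · rw [mem_range] at h5
        refine sum_eq_zero fun i _ => ?_
        rw [if_neg (by omega)]
    simp only at h1
    rw [sum_congr rfl h4, ← sum_filter] at h1
    have h5 : (range (3 * k + 1)).filter (fun c => c ∈ range (k + 1)) = range (k + 1) := by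
      ext c
      rw [mem_filter, mem_range, mem_range]
      omega
    rw [h5, ← sum_mul] at h1
    rcases mul_eq_zero.1 h1 with h6 | h6
    · exact h6
    · exfalso
      have : (k.factorial : ℝ) ≠ 0 := by exact_mod_cast k.factorial_ne_zero
      exact this h6
  -- the algebra
  have hz := UU_zero k B ξ γ0
  rw [hz] at hdiag
  simp only [hz] at hjet
  have hfin := limit_alg hξ (fun n => (B n).card) hB (by rw [hBk]; simp)
    (fun n => ∑ i ∈ range (max (k - n) 1), C (γ0 (n, i)) * X ^ i) (by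
      intro n hn
      rw [show max (k - n) 1 = k - n by omega]
      refine (degree_sum_le _ _).trans_lt ?_
      rw [Finset.sup_lt_iff (WithBot.bot_lt_coe _)]
      intro i hi
      rw [mem_range] at hi
      refine (degree_C_mul_X_pow_le _ _).trans_lt ?_
      exact_mod_cast hi) (γ0 (k, 0)) (by
      simp) hjet hdiag
  have hγ0 : ∀ p ∈ S k, γ0 p = 0 := by
    rintro ⟨n, i⟩ hp
    rw [mem_S] at hp
    simp only at hp
    have h1 := hfin n hp.1
    have h2 := congrArg (fun P : ℝ[X] => P.coeff i) h1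
    simp only [finsetSum_coeff, coeff_C_mul, coeff_X_pow, coeff_zero] at h2
    rw [sum_eq_single i] at h2
    · simpa using h2
    · intro b _ hb
      rw [if_neg (fun h => hb h.symm), mul_zero]
    · intro h3
      exact absurd (mem_range.2 hp.2) h3
  have hone : Tendsto (fun j => ∑ p ∈ S k, |γs (ψ j) p|) atTop (𝓝 (∑ p ∈ S k, |γ0 p|)) := by
    refine tendsto_finsetSum _ fun p _ => ?_
    exact ((tendsto_pi_nhds.1 hlim) p).abs
  have h1 : (fun j => ∑ p ∈ S k, |γs (ψ j) p|) = fun _ => (1 : ℝ) := by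
    funext j
    exact hγ2 (ψ j)
  rw [h1] at hone
  have h2 := tendsto_nhds_unique hone tendsto_const_nhds
  have h3 : ∑ p ∈ S k, |γ0 p| = 0 := sum_eq_zero fun p hp => by rw [hγ0 p hp, abs_zero]
  rw [h3] at h2
  norm_num at h2

end Pool.Agent.W3helper43
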