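import Pool.Agent.N388.EFW.Num

/-! The numbers of the block, without an upper bound for the defect but `1 / 2`. -/

set_option autoImplicit false

namespace Pool.Agent.W3helper43

open Finset
open Pool.Agent.TH864.SX (Slp Blk)
open Pool.Agent.N388.EFW (ee NN FF mem_FF FF_zero)

/-- the data -/
structure Dt (M : ℕ) (K : ℝ) (m x j : ℕ) : Prop where
  sl : Slp M 2 K
  e0 : 0 ≤ ee K m x j
  e12 : ee K m x j < 1 / 2
  sla : ee K m x j * (2 * K + 2) + j < K + 1
  m0 : 0 < m

variable {M : ℕ} {K : ℝ} {m x j : ℕ}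

namespace Dt

theorem K0 (h : Dt M K m x j) : 0 < K := h.sl.K0

theorem MK (h : Dt M K m x j) : (M : ℝ) < K := h.sl.hMK

theorem M0 (h : Dt M K m x j) : 0 < M := h.sl.hM

theorem eq (h : Dt M K m x j) : 2 * (K * (K - M)) = M := by
  have := h.sl.eq; push_cast at this; exact this

theorem eqK (h : Dt M K m x j) : (K - M) * (2 * K + 1) = K := by
  have := h.eq; linear_combination this

theorem lam (h : Dt M K m x j) : ((M : ℝ) + 1 - K) * (2 * K + 1) = K + 1 := by
  have := h.eq; linear_combination -this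

theorem p1 (h : Dt M K m x j) : 0 < 2 * K + 1 := by linarith [h.K0]

theorem KM (h : Dt M K m x j) : K - M < 1 / 2 := by
  have h1 := h.eqK
  have h2 := h.p1
  have h3 := h.K0
  by_contra hcon
  push Not at hcon
  have := mul_le_mul_of_nonneg_right hcon h2.le
  linarith

theorem ej (h : Dt M K m x j) : ee K m x j + j < K + 1 := by
  have h1 := h.sla
  have h2 := mul_nonneg h.e0 h.p1.le
  linarith

theorem Kx (_h : Dt M K m x j) : K * x = ee K m x j + j + (K + 1) * m := by unfold ee; ring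

theorem xm (h : Dt M K m x j) : m < x := by
  have h1 := h.Kx
  have h2 := h.e0
  have h3 := h.K0
  have h5R : (0 : ℝ) < m := by exact_mod_cast h.m0
  have hj : (0 : ℝ) ≤ j := Nat.cast_nonneg j
  have h6 : K * (m : ℝ) < K * x := by rw [h1]; nlinarith
  have h7 := lt_of_mul_lt_mul_left h6 h3.le
  exact_mod_cast h7

theorem lt_NN (h : Dt M K m x j) {κ c : ℕ} : κ < NN K m x j c ↔
    (c : ℝ) < ((M : ℝ) + 1 - K) * ((m : ℝ) - κ) - ee K m x j := by
  unfold NN
  rw [Nat.lt_ceil]
  have h1 := h.lam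
  have h2 := h.p1
  have h3 : 0 < K + 1 := by linarith [h.K0]
  have key : ((M : ℝ) + 1 - K) * ((m : ℝ) - κ) - ee K m x j - c =
      (K + 1) / (2 * K + 1) * ((m : ℝ) - (ee K m x j + c) * (2 * K + 1) / (K + 1) - κ) := by
    have h4 : (M : ℝ) + 1 - K = (K + 1) / (2 * K + 1) := by
      rw [eq_div_iff h2.ne']; exact h1
    rw [h4]
    have h5 := h2.ne'
    have h6 := h3.ne'
    have h7 : (K + 1) / (2 * K + 1) * ((m : ℝ) - (ee K m x j + c) * (2 * K + 1) / (K + 1) - κ) =
        (K + 1) / (2 * K + 1) * ((m : ℝ) - κ) -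
          (ee K m x j + c) * (((K + 1) / (2 * K + 1)) * ((2 * K + 1) / (K + 1))) := by ring
    have h8 : ((K + 1) / (2 * K + 1)) * ((2 * K + 1) / (K + 1)) = 1 := by
      rw [div_mul_div_comm, mul_comm (2 * K + 1) (K + 1)]
      exact div_self (mul_ne_zero h6 h5)
    rw [h7, h8]
    ring
  have h5 : 0 < (K + 1) / (2 * K + 1) := div_pos h3 h2
  constructor
  · intro h6
    have h7 : 0 < (m : ℝ) - (ee K m x j + c) * (2 * K + 1) / (K + 1) - κ := by linarith
    have h8 := mul_pos h5 h7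
    rw [← key] at h8
    linarith
  · intro h6
    have h7 : 0 < ((M : ℝ) + 1 - K) * ((m : ℝ) - κ) - ee K m x j - c := by linarith
    rw [key] at h7
    have h8 := (mul_pos_iff_of_pos_left h5).1 h7
    linarith

theorem lam0 (h : Dt M K m x j) : 0 < (M : ℝ) + 1 - K := by linarith [h.KM]

theorem lam1 (h : Dt M K m x j) : (M : ℝ) + 1 - K < 1 := by linarith [h.MK]

theorem NN_lt_m (h : Dt M K m x j) {κ c : ℕ} (hκ : κ < NN K m x j c) : κ < m := by
  have h1 := h.lt_NN.1 hκ
  have h2 := h.lam0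
  have h3 := h.e0
  have hc : (0 : ℝ) ≤ c := Nat.cast_nonneg c
  have h4 : 0 < ((M : ℝ) + 1 - K) * ((m : ℝ) - κ) := by linarith
  have h5 := (mul_pos_iff_of_pos_left h2).1 h4
  have : (κ : ℝ) < m := by linarith
  exact_mod_cast this

theorem NN_anti (h : Dt M K m x j) (c : ℕ) (hc : 0 < NN K m x j (c + 1)) :
    NN K m x j (c + 1) < NN K m x j c := by
  have h2 : NN K m x j (c + 1) - 1 < NN K m x j (c + 1) := by omega
  have h3 := h.lt_NN.1 h2
  rw [h.lt_NN]
  have h4 : ((NN K m x j (c + 1) - 1 : ℕ) : ℝ) = (NN K m x j (c + 1) : ℝ) - 1 := by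
    rw [Nat.cast_sub (by omega)]; simp
  rw [h4] at h3
  push_cast at h3
  have h5 := h.lam1
  nlinarith

theorem mem_FF_of (h : Dt M K m x j) {t l : ℕ} (h1 : (l : ℝ) + t + t / K ≤ x)
    (h2 : (x : ℝ) ≤ l + 2 * t + t / K) : (t, l) ∈ FF K m x := by
  rw [mem_FF]
  have hK := h.K0
  have ht : (0 : ℝ) ≤ t / K := by positivity
  refine ⟨⟨?_, ?_⟩, h1, h2⟩
  · simp only
    have h3 : (t : ℝ) + t / K ≤ x := by
      have : (0 : ℝ) ≤ l := Nat.cast_nonneg l
      linarith
    have h4 : K * (t + t / K) ≤ K * x := mul_le_mul_of_nonneg_left h3 hK.le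
    have e : K * ((t : ℝ) + t / K) = (K + 1) * t := by field_simp
    rw [e, h.Kx] at h4
    have h5 : (t : ℝ) < m + 1 := by
      have h6 := h.ej
      have h7 : (K + 1) * (t : ℝ) < (K + 1) * (m + 1) := by linarith
      exact lt_of_mul_lt_mul_left h7 (by linarith)
    have h6 : t < m + 1 := by exact_mod_cast h5
    omega
  · simp only
    have h3 : (l : ℝ) ≤ x := by
      have : (0 : ℝ) ≤ t := Nat.cast_nonneg t
      linarith
    exact_mod_cast h3

end Dt

end Pool.Agent.W3helper43
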