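import Pool.Agent.W3helper43.Cnt2
import Pool.Agent.N388.EFW.Rels

/-! The relations of the block. -/

set_option autoImplicit false

namespace Pool.Agent.W3helper43

open Finset Polynomial Pool.Agent.TH176.Nag
open Pool.Agent.N388
open Pool.Agent.TH864.SX (Slp Blk)
open Pool.Agent.N388.EFW (ee NN FF mem_FF FF_zero F1 mem_F1 F1_pos inj_col SS mem_SS cc cc_in cc_out AA
  rel_iff tri AA_ne)

variable {M : ℕ} {K : ℝ} {m x j : ℕ}

namespace Dt

theorem pos_rel (h : Dt M K m x j) (c : ℕ × ℕ → ℚ)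
    (hc : ∀ κ ≤ m, ∀ D : ℤ, 1 ≤ D → EF.Rel (SS M K x) c κ D) {t s : ℕ} (hst : s < t) :
    AA M K x c t s = 0 := by
  obtain ⟨D, rfl⟩ : ∃ D, t = D + s := ⟨t - s, by omega⟩
  have hD : 1 ≤ D := by omega
  have hzero : ∀ s, m < s → AA M K x c (D + s) s = 0 := by
    intro s hs
    by_contra h1
    have h2 := (AA_ne h.K0 h1).2
    have h3 := h.Kx
    have h4 := h.ej
    have h5 : (1 : ℝ) ≤ D := by exact_mod_cast hD
    have h6 : (m : ℝ) + 1 ≤ s := by exact_mod_cast hs
    have h7 := h.K0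
    rw [mul_sub, h3] at h2
    push_cast at h2
    nlinarith
  rcases Nat.lt_or_ge s (m + 1) with hs | hs
  swap
  · exact hzero s hs
  refine tri (m + 1) (fun s => AA M K x c (D + s) s) ?_ s hs
  intro κ hκ
  have h1 := (rel_iff c κ (D : ℤ)).1 (hc κ (by omega) D (by exact_mod_cast hD))
  have e1 : ∑ t ∈ range (⌊K * x⌋₊ + 1), (if (D : ℤ) ≤ (t : ℤ) then
        AA M K x c t ((t : ℤ) - D).toNat * ((((t : ℤ) - D).toNat.choose κ : ℕ) : ℚ) else 0) =
      ∑ t ∈ range (D + ((m + 1) + (⌊K * x⌋₊ + 1))), (if (D : ℤ) ≤ (t : ℤ) then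
        AA M K x c t ((t : ℤ) - D).toNat * ((((t : ℤ) - D).toNat.choose κ : ℕ) : ℚ) else 0) := by
    apply sum_subset
    · intro t ht
      rw [mem_range] at ht ⊢
      omega
    · intro t _ ht
      rw [mem_range] at ht
      have h2 : AA M K x c t ((t : ℤ) - D).toNat = 0 := by
        by_contra h3
        have := (AA_ne h.K0 h3).1
        omega
      rw [h2, zero_mul]
      split_ifs <;> rfl
  rw [e1, sum_range_add] at h1
  have e2 : ∑ t ∈ range D, (if (D : ℤ) ≤ (t : ℤ) then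
        AA M K x c t ((t : ℤ) - D).toNat * ((((t : ℤ) - D).toNat.choose κ : ℕ) : ℚ) else 0) = 0 := by
    apply sum_eq_zero
    intro t ht
    rw [mem_range] at ht
    rw [if_neg (by omega)]
  rw [e2, zero_add] at h1
  rw [← h1]
  have e3 : range (m + 1) ⊆ range ((m + 1) + (⌊K * x⌋₊ + 1)) := by
    intro t ht
    rw [mem_range] at ht ⊢
    omega
  rw [← sum_subset e3]
  · apply sum_congr rfl
    intro s _
    have e4 : (((D + s : ℕ) : ℤ) - D).toNat = s := by omega
    rw [e4, if_pos (by omega)]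
  · intro s _ hs'
    rw [mem_range] at hs'
    have e4 : (((D + s : ℕ) : ℤ) - D).toNat = s := by omega
    rw [e4, if_pos (by omega), hzero s (by omega), zero_mul]

end Dt

end Pool.Agent.W3helper43
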