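import Pool.Agent.W3helper43.Blk2

/-! The linear system of the block. -/

set_option autoImplicit false

namespace Pool.Agent.W3helper43

open Finset Polynomial Pool.Agent.TH176.Nag
open Pool.Agent.N388
open Pool.Agent.N388.EF (Pn t_PSI t_SPAN t_PEEL)
open Pool.Agent.TH864.SX (Slp Blk)
open Pool.Agent.N388.EFW (ee NN FF mem_FF FF_zero F1 mem_F1 F1_pos inj_col SS mem_SS cc cc_in cc_out AA
  rel_iff tri AA_ne colP colP_coeff sum_cut)

variable {M : ℕ} {K : ℝ} {m x : ℕ}

theorem prod_choose (l n : ℕ) : ∏ i ∈ range n, ((l : ℚ) - i) = (n.factorial : ℚ) * ((l.choose n : ℕ) : ℚ) := by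
  have h1 : ∏ i ∈ range n, ((l : ℚ) - i) = ((l.descFactorial n : ℕ) : ℚ) := by
    induction n with
    | zero => simp
    | succ n ih =>
      rw [prod_range_succ, ih, Nat.descFactorial_succ]
      rcases Nat.lt_or_ge l n with h | h
      · rw [Nat.descFactorial_eq_zero_iff_lt.2 h]
        simp
      · push_cast [Nat.cast_sub h]
        ring
  rw [h1, Nat.descFactorial_eq_factorial_mul_choose]
  push_cast
  ring

namespace Dt

theorem deg_bd (h : Dt M K m x 0) {k : ℕ} (hkm : 2 * k ≤ m)
    (hdef : ee K m x 0 * (2 * (K + 1)) + rr K m x k * (K + 1) < k + ee K m x 0)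
    {p : ℕ × ℕ} (hp : p ∈ S k) :
    (m - (k - rr K m x k) - k) + p.2 + (BB K m x k p.1).card < NN K m x 0 p.1 := by
  rw [mem_S] at hp
  obtain ⟨hp1, hp2⟩ := hp
  have hrk := h.rr_le_self k
  have hlam := h.lam
  have hp0 := h.p1
  have he := h.e12
  have hK := h.K0
  unfold BB
  rw [Nat.card_Ico]
  rcases Nat.lt_or_ge p.1 k with hn | hn
  · have hrn := h.rr_le_self p.1
    have hmono := h.rr_mono hn.le
    have hstep := h.rr_step hn.le
    have h1 : (m - (k - rr K m x k) - k) + p.2 + ((k - rr K m x k) - (p.1 - rr K m x p.1)) ≤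
        m - 1 - 2 * p.1 + rr K m x p.1 := by omega
    refine lt_of_le_of_lt h1 ?_
    rw [h.lt_NN]
    have e1 : ((m - 1 - 2 * p.1 + rr K m x p.1 : ℕ) : ℝ) = (m : ℝ) - 1 - 2 * p.1 + rr K m x p.1 := by
      rw [Nat.cast_add, Nat.cast_sub (by omega), Nat.cast_sub (by omega)]
      push_cast
      ring
    rw [e1]
    refine lt_of_mul_lt_mul_right ?_ hp0.le
    have e2 : (((M : ℝ) + 1 - K) * ((m : ℝ) - ((m : ℝ) - 1 - 2 * p.1 + rr K m x p.1)) - ee K m x 0) *
        (2 * K + 1) = (K + 1) * (1 + 2 * p.1 - rr K m x p.1) - ee K m x 0 * (2 * K + 1) := by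
      linear_combination ((1 : ℝ) + 2 * p.1 - rr K m x p.1) * hlam
    rw [e2]
    have h2 := h.rr_le p.1
    nlinarith
  · have hn' : p.1 = k := by omega
    rw [hn', Nat.sub_self, add_zero]
    have hp2' : p.2 = 0 := by
      rw [hn'] at hp2
      omega
    rw [hp2', add_zero]
    have h1 : m - (k - rr K m x k) - k = m - 2 * k + rr K m x k := by omega
    rw [h1, h.lt_NN]
    have e1 : ((m - 2 * k + rr K m x k : ℕ) : ℝ) = (m : ℝ) - 2 * k + rr K m x k := by
      rw [Nat.cast_add, Nat.cast_sub hkm]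
      push_cast
      ring
    rw [e1]
    refine lt_of_mul_lt_mul_right ?_ hp0.le
    have e2 : (((M : ℝ) + 1 - K) * ((m : ℝ) - ((m : ℝ) - 2 * k + rr K m x k)) - ee K m x 0) *
        (2 * K + 1) = (K + 1) * (2 * k - rr K m x k) - ee K m x 0 * (2 * K + 1) := by
      linear_combination ((2 : ℝ) * k - rr K m x k) * hlam
    rw [e2]
    nlinarith

/-- the whole linear system is solved -/
theorem solve2 (h : Dt M K m x 0) {k : ℕ} (hkm : 2 * k ≤ m)
    (hdef : ee K m x 0 * (2 * (K + 1)) + rr K m x k * (K + 1) < k + ee K m x 0)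
    (hinj : Inj k (BB K m x k) (yy K) m x) (b : ℕ × ℕ → ℚ)
    (hb : ∀ n, ∀ κ < NN K m x 0 n, ∑ q ∈ FF K m x, b q * (((q.1 + n).choose κ : ℕ) : ℚ) *
      ((q.2.choose n : ℕ) : ℚ) = 0) : ∀ q ∈ FF K m x, b q = 0 := by
  classical
  have hspan := t_SPAN (FF K m x) b (x : ℚ) (NN K m x 0) h.NN_anti hb
  have hrk := h.rr_le_self k
  obtain ⟨g, hg1, hg0⟩ := test_exists (by unfold yy; simp) hinj
  obtain ⟨DD, hDD⟩ : ∃ DD : ℚ[X], DD = ∏ τ ∈ Icc (k + 1) (m - (k - rr K m x k)), (X - C (τ : ℚ)) :=
    ⟨_, rfl⟩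
  have hDdeg : DD.natDegree ≤ m - (k - rr K m x k) - k := by
    rw [hDD]
    refine (natDegree_prod_le _ _).trans ?_
    simp only [natDegree_X_sub_C]
    rw [sum_const, Nat.card_Icc, smul_eq_mul, mul_one]
    omega
  -- the relation of the test function
  have hterm : ∀ p ∈ S k, ∑ q ∈ FF K m x, b q * (DD.eval (q.1 : ℚ) *
      (g p * (q.1 : ℚ) ^ p.2 * (∏ s ∈ BB K m x k p.1, ((q.1 : ℚ) - m + s)) *
        ∏ i ∈ range p.1, ((x : ℚ) - i - q.1 - ((x : ℚ) - q.1 - q.2)))) = 0 := by
    intro p hp
    have h1 := EF.SPAN.one (FF K m x) b (NN K m x 0 p.1) p.1 p.1 (hb p.1) _ le_rfl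
      (DD * (C (g p) * X ^ p.2 * ∏ s ∈ BB K m x k p.1, (X - C ((m : ℚ) - s)))) (by
        have h2 : (DD * (C (g p) * X ^ p.2 * ∏ s ∈ BB K m x k p.1, (X - C ((m : ℚ) - s)))).natDegree <
            NN K m x 0 p.1 := by
          refine lt_of_le_of_lt ?_ (h.deg_bd hkm hdef hp)
          refine natDegree_mul_le.trans ?_
          rw [add_assoc]
          refine add_le_add hDdeg ?_
          refine natDegree_mul_le.trans ?_
          refine add_le_add (natDegree_C_mul_X_pow_le _ _) ?_
          refine (natDegree_prod_le _ _).trans ?_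
          simp only [natDegree_X_sub_C]
          simp
        exact lt_of_le_of_lt degree_le_natDegree (by exact_mod_cast h2))
    have h3 : ∀ q : ℕ × ℕ, b q * (DD.eval (q.1 : ℚ) *
      (g p * (q.1 : ℚ) ^ p.2 * (∏ s ∈ BB K m x k p.1, ((q.1 : ℚ) - m + s)) *
        ∏ i ∈ range p.1, ((x : ℚ) - i - q.1 - ((x : ℚ) - q.1 - q.2)))) =
        (p.1.factorial : ℚ) * (b q * (DD * (C (g p) * X ^ p.2 *
          ∏ s ∈ BB K m x k p.1, (X - C ((m : ℚ) - s)))).eval (q.1 : ℚ) * ((q.2.choose p.1 : ℕ) : ℚ)) := by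
      intro q
      have e1 : ∏ i ∈ range p.1, ((x : ℚ) - i - q.1 - ((x : ℚ) - q.1 - q.2)) =
          (p.1.factorial : ℚ) * ((q.2.choose p.1 : ℕ) : ℚ) := by
        rw [← prod_choose]
        refine prod_congr rfl fun i _ => ?_
        ring
      have e2 : ∏ s ∈ BB K m x k p.1, ((q.1 : ℚ) - m + s) =
          (∏ s ∈ BB K m x k p.1, (X - C ((m : ℚ) - s))).eval (q.1 : ℚ) := by
        rw [eval_prod]
        refine prod_congr rfl fun s _ => ?_
        simp only [eval_sub, eval_X, eval_C]
        ring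
      rw [e1, e2]
      simp only [eval_mul, eval_C, eval_X, eval_pow]
      ring
    simp only [h3]
    rw [← mul_sum, h1, mul_zero]
  have hsum : ∑ q ∈ FF K m x, b q * DD.eval (q.1 : ℚ) *
      Wq k (BB K m x k) m x g q.1 ((x : ℚ) - q.1 - q.2) = 0 := by
    have h1 := sum_eq_zero hterm
    rw [sum_comm] at h1
    rw [← h1]
    refine sum_congr rfl fun q _ => ?_
    unfold Wq
    rw [mul_sum]
    refine sum_congr rfl fun p _ => ?_
    ring
  have hapex : b (0, x) = 0 := by
    have hin : ((0, x) : ℕ × ℕ) ∈ FF K m x := by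
      apply h.mem_FF_of <;> simp
    rw [sum_eq_single (0, x)] at hsum
    · have h1 : DD.eval (((0 : ℕ) : ℚ)) ≠ 0 := by
        rw [hDD, eval_prod, prod_ne_zero_iff]
        intro τ hτ
        rw [mem_Icc] at hτ
        simp only [eval_sub, eval_X, eval_C]
        have : (τ : ℚ) ≠ 0 := by
          have : τ ≠ 0 := by omega
          exact_mod_cast this
        simpa using this
      have h2 : Wq k (BB K m x k) m x g ((0 : ℕ) : ℚ) ((x : ℚ) - ((0 : ℕ) : ℚ) - x) ≠ 0 := by
        have e : (x : ℚ) - ((0 : ℕ) : ℚ) - x = 0 := by simp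
        rw [e, Nat.cast_zero]
        exact hg0
      simp only at hsum
      rcases mul_eq_zero.1 hsum with h3 | h3
      · rcases mul_eq_zero.1 h3 with h4 | h4
        · exact h4
        · exact absurd h4 h1
      · exact absurd h3 h2
    · rintro ⟨t, l⟩ hq hne
      rcases Nat.eq_zero_or_pos t with h1 | h1
      · subst h1
        have := FF_zero hq
        subst this
        exact absurd rfl hne
      · rcases Nat.lt_or_ge k t with h2 | h2
        · rcases Nat.lt_or_ge (m - (k - rr K m x k)) t with h3 | h3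
          · -- right end
            have h4 : t ≤ m := by
              rw [mem_FF] at hq
              exact hq.1.1
            obtain ⟨s, rfl⟩ : ∃ s, t = m - s := ⟨m - t, by omega⟩
            have hs : s ≤ m := by omega
            have h6 : Wq k (BB K m x k) m x g (((m - s : ℕ)) : ℚ) ((x : ℚ) - ((m - s : ℕ) : ℚ) - l) = 0 := by
              unfold Wq
              refine sum_eq_zero fun p hp => ?_
              rcases Nat.lt_or_ge l p.1 with h7 | h7
              · have e1 : ∏ i ∈ range p.1, ((x : ℚ) - i - ((m - s : ℕ) : ℚ) -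
                    ((x : ℚ) - ((m - s : ℕ) : ℚ) - l)) = 0 := by
                  refine prod_eq_zero (mem_range.2 h7) ?_
                  ring
                rw [e1, mul_zero]
              · have h8 := h.FF_right2 hs hq h7
                have e1 : ∏ s' ∈ BB K m x k p.1, (((m - s : ℕ) : ℚ) - m + s') = 0 := by
                  refine prod_eq_zero (i := s) ?_ ?_
                  · unfold BB
                    rw [mem_Ico]
                    omega
                  · rw [Nat.cast_sub hs]
                    ring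
                rw [e1, mul_zero, zero_mul]
            simp only
            rw [h6, mul_zero]
          · -- middle
            have h4 : DD.eval (((t : ℕ) : ℚ)) = 0 := by
              rw [hDD, eval_prod]
              apply prod_eq_zero (mem_Icc.2 ⟨h2, h3⟩)
              simp
            simp only
            rw [h4, mul_zero, zero_mul]
        · -- left end
          obtain ⟨r, hr, hx⟩ := h.FF_left2 h1 hq
          have h6 := hg1 t r h1 h2 hr
          have e1 : (x : ℚ) - (t : ℚ) - l = ((yy K t + r : ℕ) : ℚ) := by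
            have : (x : ℚ) = ((t + l + (yy K t + r) : ℕ) : ℚ) := by exact_mod_cast hx
            rw [this]
            push_cast
            ring
          simp only
          rw [e1, h6, mul_zero]
    · intro h1
      exact absurd hin h1
  -- the rest
  have hrest := t_PEEL (F1 K m x) b (fun q => (x : ℚ) - q.1 - q.2) (NN K m x 0) (by
      rintro ⟨t, l⟩ - ⟨t', l'⟩ - h1 h2
      simp only at h1 h2
      subst h1
      have h3 : (l : ℚ) = l' := by linarith
      have h4 : l = l' := by exact_mod_cast h3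
      rw [h4]) (fun c => by convert h.count c) (by
      intro c p hp
      have h1 := hspan c p (X ^ c) hp (by rw [natDegree_X_pow])
      have h2 : ∑ q ∈ F1 K m x, b q * p.eval (q.1 : ℚ) * ((x : ℚ) - q.1 - q.2) ^ c =
          ∑ q ∈ FF K m x, b q * p.eval (q.1 : ℚ) * (X ^ c : ℚ[X]).eval ((x : ℚ) - q.1 - q.2) := by
        unfold F1
        rw [sum_erase]
        · apply sum_congr rfl
          intro q _
          rw [eval_pow, eval_X]
        · rw [hapex, zero_mul, zero_mul]
      rw [h2]
      exact h1)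
  intro q hq
  by_cases h1 : q = (0, x)
  · rw [h1]
    exact hapex
  · exact hrest q (mem_F1.2 ⟨h1, hq⟩)

end Dt

end Pool.Agent.W3helper43
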