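import Pool.Agent.W3helper43.Dens
import Pool.Agent.N388.EFW.Fam

/-! 11 and 15 points: the remaining degrees for large multiplicity. -/

set_option autoImplicit false

namespace Pool.Agent.W3helper43

open Finset Pool.Agent.TH176.Nag Pool.Agent.TH603.Sur Pool.Agent.TH603.Cut Pool.Agent.H932R3
open Pool.Agent.TH864.SX (Fb Fa Slp Blk)
open Pool.Agent.TH469.SX (Bo Fl)
open Pool.Agent.TH978.S13 (Sc Emp_shift Sur_shift Emp_add Sur_add Emp_units Sur_units Emp_plane9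
  Sur_plane9 Emp_equiv Sur_equiv KN slpN sqN)
open Pool.Agent.TH864.DP (bl wt3 Emp_copies Sur_copies eqf eqf_spec or_equiv)
open Pool.Agent.N135.QT (BB sM sM_sq sM_lt KN_eq sM_root)
open Pool.Agent.N388.EFW (ee dich_unif good_root)

/-- from one block to `9 + 2 r` points -/
theorem emp_all {M r n : ℕ} (hMr : M * r = 9) (hn : n = 9 + 2 * r) {D m : ℕ}
    (h : Emp (fun _ : Fin (M + 2) => m) (Blk M (KN M) (3 * D))) :
    Emp (fun _ : Fin n => m) (TZ (3 * D)) := by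
  have hM : 1 ≤ M := Nat.pos_of_ne_zero (by rintro rfl; simp at hMr)
  have hr : 1 ≤ r := Nat.pos_of_ne_zero (by rintro rfl; simp at hMr)
  obtain ⟨hS, hK1, hK2⟩ := slpN hM
  have hd : (((3 * D : ℕ) : ℝ)) / 3 = D := by push_cast; ring
  have hbc : 0 + (M + 2) = M + 2 := zero_add _
  have eqv : Fin 0 ⊕ Fin (M + 2) ≃ Fin (M + 2) := finSumFinEquiv.trans (finCongr hbc)
  have key2 := Emp_equiv (v := bl 0 (M + 2) m) eqv.symm (fun i => by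
    rcases eqv.symm i with a | a
    · exact a.elim0
    · rfl) h
  have hd' : Emp (bl 0 (M + 2) m) (BB M D (KN M)) := by
    refine key2.mono ?_
    rintro p ⟨g1, g2, g3⟩
    refine ⟨g1, ?_, ?_⟩
    · rw [hd]; exact g2
    · rw [hd]; exact g3
  obtain ⟨r', rfl⟩ : ∃ r', r = r' + 1 := ⟨r - 1, by omega⟩
  obtain ⟨x, hx⟩ : ∃ x : ℝ, x = KN M - M := ⟨_, rfl⟩
  have hirr : Irrational x := by
    rw [hx]
    exact hS.irr.sub_natCast M
  have hx0 : 0 < x := by rw [hx]; linarith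
  have hx3 : x < 3 := by rw [hx]; linarith
  have hxM : x + M = KN M := by rw [hx]; ring
  have ha : 1 ≤ (r' + 1) * M := Nat.mul_pos (Nat.succ_pos r') hM
  have hk : (r' + 1) * M + 0 = 9 := by rw [add_zero, mul_comm]; exact hMr
  have h9 : x + (((r' + 1) * M + 0 : ℕ) : ℝ) = x + 9 := by rw [hk]; push_cast; ring
  have h2 : Emp (bl 0 (M + 2) m) (Sc x (x + M) D ∪ {((0, (D : ℤ)) : ℤ × ℤ)}) := by
    refine hd'.mono ?_
    rintro p (⟨g1, g2, g3⟩ | hp)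
    · refine ⟨g1, ?_, ?_⟩
      · rw [← hx]; exact g2.le
      · rw [← hxM]; exact g3.le
    · rw [Set.mem_singleton_iff] at hp
      rw [hp]
      refine ⟨by simp, ?_, ?_⟩ <;> simp
  have h3 := Emp_units ha hirr (Emp_copies hM hirr h2 r') 0
  rw [h9] at h3
  have h4 := Emp_plane9 hirr hx0 hx3 h3
  have hn' : 0 + (r' + 1) * (M + 2) = n := by
    rw [hn]
    nlinarith
  have hn2 : 0 + ((r' + 1) * 0 + (r' + 1) * (M + 2)) = 0 + (r' + 1) * (M + 2) := by ring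
  subst hn'
  refine Emp_emb (eqf (r' + 1) 0 (M + 2) 0 _ hn2) (eqf (r' + 1) 0 (M + 2) 0 _ hn2).injective
    (fun i => ?_) h4
  rw [← eqf_spec (r' + 1) 0 (M + 2) 0 _ hn2 D m i]
  simp [wt3]

/-- the defect `(K D - (K + 1) m)` for `d = 3 D` -/
theorem ee_root {M r n D m : ℕ} (hMr : M * r = 9) (hn : n = 9 + 2 * r) :
    ee (KN M) m D 0 * (√(n : ℝ) - 3) = ((3 * D : ℕ) : ℝ) - √(n : ℝ) * m ∧
      (KN M - M) * (√(n : ℝ) + 3) = 3 ∧ 3 < √(n : ℝ) ∧ Slp M 2 (KN M) := by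
  have hM : 1 ≤ M := Nat.pos_of_ne_zero (by rintro rfl; simp at hMr)
  obtain ⟨hS, hK1, hK2⟩ := slpN hM
  have h1 : (M : ℝ) * r = 9 := by exact_mod_cast hMr
  have h2 : √(n : ℝ) * √(n : ℝ) = n := Real.mul_self_sqrt (Nat.cast_nonneg n)
  have h6 : (n : ℝ) = 9 + 2 * r := by rw [hn]; push_cast; ring
  have hs := sM_root hMr hn
  have hr0 : 0 < r := Nat.pos_of_ne_zero (by rintro rfl; simp at hMr)
  have hrR : (0 : ℝ) < r := by exact_mod_cast hr0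
  obtain ⟨ρ, hρ⟩ : ∃ ρ, ρ = √(n : ℝ) := ⟨_, rfl⟩
  rw [← hρ] at hs h2 ⊢
  have hρ0 : 0 ≤ ρ := by rw [hρ]; exact Real.sqrt_nonneg _
  have hρ2 : ρ * ρ = 9 + 2 * r := by rw [h2, h6]
  have hq := sM_sq M
  have hlt := sM_lt M
  have hρ3 : 3 < ρ := by
    by_contra hcon
    push Not at hcon
    nlinarith
  refine ⟨?_, ?_, hρ3, hS⟩
  · have hr1 : ee (KN M) m D 0 * (ρ - 3) * r = (((3 * D : ℕ) : ℝ) - ρ * m) * r := by
      unfold ee
      rw [KN_eq]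
      push_cast
      have e5 : ((M + sM M) * D - (M + 2 + sM M) * m) * r = (ρ + 3) * (3 * D - ρ * m) := by
        linear_combination (D - m : ℝ) * h1 + (D - m : ℝ) * hs + (m : ℝ) * hρ2
      linear_combination (ρ - 3) / 2 * e5 + (3 * D - ρ * m) / 2 * hρ2
    exact mul_right_cancel₀ hrR.ne' hr1
  · have hr1 : (KN M - M) * (ρ + 3) * r = 3 * r := by
      rw [KN_eq]
      have e6 : (sM M - M) * r = 3 * (ρ - 3) := by
        linear_combination hs - h1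
      linear_combination (ρ + 3) / 2 * e6 + 3 / 2 * hρ2
    exact mul_right_cancel₀ hrR.ne' hr1

/-- **the remaining degrees divisible by three, for large `m`** -/
theorem large_dich {M r n : ℕ} (hMr : M * r = 9) (hn : n = 9 + 2 * r) {η : ℝ} (hη : 0 < η) :
    ∃ m0 : ℕ, ∀ m : ℕ, m0 ≤ m → ∀ D : ℕ,
      ¬ ((√(n : ℝ) - 3) / 2 - η ≤ ((3 * D : ℕ) : ℝ) - √(n : ℝ) * m ∧
        ((3 * D : ℕ) : ℝ) - √(n : ℝ) * m < (√(n : ℝ) - 3) / 2) →
      Emp (fun _ : Fin n => m) (TZ (3 * D)) ∨ Sur (fun _ : Fin n => m) (TZ (3 * D)) := by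
  obtain ⟨-, hθ, hρ3, hS⟩ := ee_root (D := 0) (m := 0) hMr hn
  have hρ0 : 0 < √(n : ℝ) - 3 := by linarith
  obtain ⟨e1, he1⟩ : ∃ e1 : ℝ, e1 = 1 / 2 - η / (√(n : ℝ) - 3) := ⟨_, rfl⟩
  have hq : 0 < η / (√(n : ℝ) - 3) := div_pos hη hρ0
  obtain ⟨m0, hm0⟩ := loc_Icc hS (e1 := e1) (by rw [he1]; linarith)
  refine ⟨m0, fun m hm D hD => ?_⟩
  obtain ⟨hee, -, -, -⟩ := ee_root (D := D) (m := m) hMr hn
  by_cases hg : (√(n : ℝ) + 3) * (((3 * D : ℕ) : ℝ) - √(n : ℝ) * m) < 3 * (√(n : ℝ) - 3) ∨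
      √(n : ℝ) * (2 * m + 1) ≤ 2 * ((3 * D : ℕ) : ℝ) + 3
  · exact dich_unif hMr hn (good_root hMr hn hg)
  push Not at hg
  obtain ⟨g1, g2⟩ := hg
  left
  refine emp_all hMr hn (hm0 m hm D ⟨?_, ?_⟩)
  · have h1 : (KN M - M) * ((√(n : ℝ) + 3) * (√(n : ℝ) - 3)) ≤
        ee (KN M) m D 0 * ((√(n : ℝ) + 3) * (√(n : ℝ) - 3)) := by
      have e1 : (KN M - M) * ((√(n : ℝ) + 3) * (√(n : ℝ) - 3)) = 3 * (√(n : ℝ) - 3) := by
        linear_combination (√(n : ℝ) - 3) * hθ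
      have e2 : ee (KN M) m D 0 * ((√(n : ℝ) + 3) * (√(n : ℝ) - 3)) =
          (√(n : ℝ) + 3) * (((3 * D : ℕ) : ℝ) - √(n : ℝ) * m) := by
        linear_combination (√(n : ℝ) + 3) * hee
      rw [e1, e2]
      exact g1
    exact le_of_mul_le_mul_right h1 (mul_pos (by linarith) hρ0)
  · have h1 : ((3 * D : ℕ) : ℝ) - √(n : ℝ) * m < (√(n : ℝ) - 3) / 2 - η := by
      by_contra hcon
      push Not at hcon
      exact hD ⟨hcon, by linarith⟩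
    have h2 : ee (KN M) m D 0 * (√(n : ℝ) - 3) ≤ e1 * (√(n : ℝ) - 3) := by
      rw [hee, he1]
      have e3 : (1 / 2 - η / (√(n : ℝ) - 3)) * (√(n : ℝ) - 3) = (√(n : ℝ) - 3) / 2 - η := by
        field_simp
      rw [e3]
      exact h1.le
    exact le_of_mul_le_mul_right h2 hρ0

/-- **11 and 15 points, large multiplicity** -/
theorem uniform4 {n : ℕ} (hn : n = 11 ∨ n = 15) {η : ℝ} (hη : 0 < η) : ∃ m0 : ℕ, ∀ m : ℕ, m0 ≤ m →
    ∃ F : MvPolynomial (Fin n × Fin 2) ℚ, F ≠ 0 ∧ ∀ {L : Type} [Field L] [CharZero L]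
      (P : Fin n → Fin 2 → L), MvPolynomial.aeval (fun ij : Fin n × Fin 2 => P ij.1 ij.2) F ≠ 0 →
      ∀ d : ℕ, ¬ (3 ∣ d ∧ (√(n : ℝ) - 3) / 2 - η ≤ (d : ℝ) - √(n : ℝ) * m ∧
        (d : ℝ) - √(n : ℝ) * m < (√(n : ℝ) - 3) / 2) → ExpDim L (fun _ => m) P d := by
  have key : ∀ {M r : ℕ}, M * r = 9 → n = 9 + 2 * r → ∃ m0 : ℕ, ∀ m : ℕ, m0 ≤ m → ∀ D : ℕ,
      ¬ ((√(n : ℝ) - 3) / 2 - η ≤ ((3 * D : ℕ) : ℝ) - √(n : ℝ) * m ∧
        ((3 * D : ℕ) : ℝ) - √(n : ℝ) * m < (√(n : ℝ) - 3) / 2) →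
      Emp (fun _ : Fin n => m) (TZ (3 * D)) ∨ Sur (fun _ : Fin n => m) (TZ (3 * D)) :=
    fun hMr hn' => large_dich hMr hn' hη
  obtain ⟨m0, hm0⟩ : ∃ m0 : ℕ, ∀ m : ℕ, m0 ≤ m → ∀ D : ℕ,
      ¬ ((√(n : ℝ) - 3) / 2 - η ≤ ((3 * D : ℕ) : ℝ) - √(n : ℝ) * m ∧
        ((3 * D : ℕ) : ℝ) - √(n : ℝ) * m < (√(n : ℝ) - 3) / 2) →
      Emp (fun _ : Fin n => m) (TZ (3 * D)) ∨ Sur (fun _ : Fin n => m) (TZ (3 * D)) := by
    rcases hn with rfl | rfl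
    · exact key (M := 9) (r := 1) (by norm_num) (by norm_num)
    · exact key (M := 3) (r := 3) (by norm_num) (by norm_num)
  refine ⟨m0, fun m hm => ?_⟩
  refine Pool.Agent.TH864.SX.expDim_of_or' fun d hd => ?_
  by_cases h3 : 3 ∣ d
  · obtain ⟨D, rfl⟩ := h3
    exact hm0 m hm D fun h => hd ⟨⟨D, rfl⟩, h.1, h.2⟩
  · rcases hn with rfl | rfl
    · exact Pool.Agent.TH864.SX.dich' Pool.Agent.TH864.SX.num11 Pool.Agent.TH864.SX.K11_lt m d (Or.inl h3)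
    · exact Pool.Agent.TH469.SX.dich_three (b := 5) Pool.Agent.TH469.SX.slp15
        Pool.Agent.TH469.SX.K15_lt (Pool.Agent.TH469.SX.dich5 m d (Or.inl h3))

end Pool.Agent.W3helper43
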